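import Pool.Agent.Helper66.CA.FaceOps

set_option autoImplicit false

/-!
Module AE-13: the flip at the third edge of the face across `t`.

Notation: `r_j := f^[j] (a t)`, `l := minimalPeriod M.f (a t) ≥ 4`, `e := f (f (a t)) = r_2`.
`hb d : ¬ Face d (a d)`. Since `f x = s (a x)`:
 `y1 := s (a e) = f e = r_3`, `x2 := s (s e) = a r_1` (because `e = f r_1 = s (a r_1)`),
 `x1 := s e = f (a e)` is on the face of `a e = a r_2`, `y2 := s y1 = s r_3 = f (a r_3)` is on the
 face of `a r_3`.
`far`: no dart of the six is on the face of `v` or of `w`: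
 * `e, y1` are on the face of `a t`. If this is the face of `v` then `Face t (a t)` (`hb`). If it is
   the face of `w`: `a t` is on the face of `w` and at the vertex of `f t = s (a t)` which is on the
   face of `v`: contradiction to `hNA`.
 * `a r_j` for `j = 1, 2, 3` (with `a e = a r_2`, `x1` on the face of `a r_2`, `x2 = a r_1`, `y2` on
   the face of `a r_3`): if on the face of `v`: `once` for `t' := a r_j` (as `a t' = r_j` is on the
   face of `a t`) gives `a r_j = t`, `r_j = a t = r_0`, impossible for `0 < j < l`. If on the face of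
   `w`: `nonadj` for `d := r_j`.
`flip_u`: let `x` be on the face of `a t`, `x ≠ e`. Then `(flip M e g).f x` is on the face of `a t`
 and `≠ e`, and it is `f x` if `f x ≠ e`, and `f e` if `f x = e`. Proof: if `f x = e` then
 `a x = x2` (`s` injective, `s x2 = e`) and `fs M e x2 = y1 = f e`. Otherwise `a x` is not one of
 the six: `s (a x) = f x` is on the face of `a t`; of the six only `e` and `y1` are on it (`a e`,
 `x1`, `x2`, `y2` are on faces of `a r_j`, `j = 1,2,3`, use `hb`), and `f x = y1 = f e` would give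
 `x = e`. So `(flip M e g).f x = s (a x) = f x`.
`flip_good`: `GoodT` in the flipped map: `onv` by `face_flip`; the face of `a t` in the flipped map
 is contained in the old one (`flip_u`, induction), `nonadj` and `once` follow with `face_flip` for
 `v` and `w`. The period: `(flip M e g).f^[1] (a t) = r_1`, `(flip M e g).f r_1 = r_3`, then
 `(flip M e g).f r_j = r_(j+1)` for `3 ≤ j < l`, so `(flip M e g).f^[l-1] (a t) = r_l = a t` and the
 minimal period is at most `l - 1`.
-/

namespace Pool.Agent.Helper66.CA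
open Pool.Agent.Helper17.CT Pool.Agent.Helper92.CA Function

variable {D : Type} (M : CMap D)

private theorem fx_eq (x : D) : M.f x = M.s (M.a x) := rfl

private theorem six_cases (t : D) (d : D) (hd : Six M (M.f (M.f (M.a t))) d) :
    d = M.f (M.f (M.a t)) ∨ d = M.f (M.f (M.f (M.a t))) ∨
      d = M.f (M.a (M.f (M.f (M.a t)))) ∨ d = M.a (M.f (M.a t)) ∨
      d = M.a (M.f (M.f (M.a t))) ∨ d = M.f (M.a (M.f (M.f (M.f (M.a t))))) := by
  rcases hd with h | h | h | h | h | h
  · exact Or.inl h
  · right; right; left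
    rw [h, fx_eq M (M.a (M.f (M.f (M.a t)))), M.a2]
  · right; right; right; left
    rw [h]
    exact M.s3 (M.a (M.f (M.a t)))
  · right; right; right; right; left
    exact h
  · right; left
    exact h
  · right; right; right; right; right
    rw [h, fx_eq M (M.a (M.f (M.f (M.f (M.a t))))), M.a2]
    rfl

private theorem face_f [Finite D] {x y : D} : M.Face x (M.f y) ↔ M.Face x y := by
  constructor
  · intro h
    exact face_trans M h (face_symm M ⟨1, rfl⟩)
  · rintro ⟨n, rfl⟩
    exact ⟨n + 1, Function.iterate_succ_apply' _ _ _⟩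

private theorem iter_ne {x : D} {j : ℕ} (hj : 0 < j) (hl : j < minimalPeriod M.f x) :
    (M.f)^[j] x ≠ x := Function.not_isPeriodicPt_of_pos_of_lt_minimalPeriod hj.ne' hl

theorem far [Finite D] (hb : ∀ d, ¬ M.Face d (M.a d)) (v w t : D) (hNA : NA M v w)
    (hg : GoodT M v w t) (h4 : 4 ≤ minimalPeriod M.f (M.a t)) (d : D)
    (hd : Six M (M.f (M.f (M.a t))) d) : ¬ M.Face v d ∧ ¬ M.Face w d := by
  have hu : ∀ y, M.Face (M.a t) y → ¬ M.Face v y ∧ ¬ M.Face w y := by
    intro y hy
    constructor
    · intro h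
      exact hb t (face_trans M (face_symm M hg.onv) (face_trans M h (face_symm M hy)))
    · intro h
      refine hNA (M.f t) (M.a t) ((face_f M).2 hg.onv) (face_trans M h (face_symm M hy)) ?_
      right; right
      exact (M.s3 (M.a t)).symm
  have ha : ∀ j, 0 < j → j < minimalPeriod M.f (M.a t) →
      ¬ M.Face v (M.a ((M.f)^[j] (M.a t))) ∧ ¬ M.Face w (M.a ((M.f)^[j] (M.a t))) := by
    intro j hj hjl
    constructor
    · intro h
      have h1 := hg.once _ h (by rw [M.a2]; exact ⟨j, rfl⟩)
      refine iter_ne M hj hjl ?_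
      conv_rhs => rw [← h1]
      rw [M.a2]
    · exact hg.nonadj _ ⟨j, rfl⟩
  rcases six_cases M t d hd with h | h | h | h | h | h
  · rw [h]; exact hu _ ⟨2, rfl⟩
  · rw [h]; exact hu _ ⟨3, rfl⟩
  · rw [h, face_f, face_f]; exact ha 2 (by omega) (by omega)
  · rw [h]; exact ha 1 (by omega) (by omega)
  · rw [h]; exact ha 2 (by omega) (by omega)
  · rw [h, face_f, face_f]; exact ha 3 (by omega) (by omega)

private theorem flip_f {e : D} (g : Gad M e) (x : D) :
    (Helper92.CA.flip M e g).f x = fs M e (M.a x) := rfl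

private theorem flip_u1 {e : D} (g : Gad M e) {x : D} (hx : M.f x = e) :
    (Helper92.CA.flip M e g).f x = M.f e := by
  have h1 : M.a x = M.s (M.s e) := by
    rw [← hx, fx_eq]
    exact (M.s3 (M.a x)).symm
  rw [flip_f, h1, fs_x2 g]
  rfl

private theorem flip_u2 [Finite D] (hb : ∀ d, ¬ M.Face d (M.a d)) (t : D)
    (g : Gad M (M.f (M.f (M.a t)))) {x : D} (hx : M.Face (M.a t) x)
    (hxe : x ≠ M.f (M.f (M.a t))) (hfx : M.f x ≠ M.f (M.f (M.a t))) :
    (Helper92.CA.flip M (M.f (M.f (M.a t))) g).f x = M.f x := by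
  have hinj : Function.Injective M.f := M.hf_inj
  have hno : ∀ j, ¬ M.Face (M.a t) (M.a ((M.f)^[j] (M.a t))) := fun j h =>
    hb _ (face_trans M (face_symm M ⟨j, rfl⟩) h)
  have hfx' : M.Face (M.a t) (M.f x) := (face_f M).2 hx
  have h6 : ¬ Six M (M.f (M.f (M.a t))) (M.a x) := by
    rw [← six_s]
    intro h
    change Six M (M.f (M.f (M.a t))) (M.f x) at h
    rcases six_cases M t _ h with h | h | h | h | h | h
    · exact hfx h
    · exact hxe (hinj h)
    · rw [hinj h] at hx
      exact hno 2 hx
    · rw [h] at hfx'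
      exact hno 1 hfx'
    · rw [h] at hfx'
      exact hno 2 hfx'
    · rw [hinj h] at hx
      exact hno 3 hx
  rw [flip_f, fs_out h6]
  rfl

theorem flip_good [Finite D] (hb : ∀ d, ¬ M.Face d (M.a d)) (v w t : D) (hNA : NA M v w)
    (hg : GoodT M v w t) (h4 : 4 ≤ minimalPeriod M.f (M.a t))
    (g : Gad M (M.f (M.f (M.a t)))) :
    GoodT (Helper92.CA.flip M (M.f (M.f (M.a t))) g) v w t ∧
      minimalPeriod (Helper92.CA.flip M (M.f (M.f (M.a t))) g).f (M.a t) <
        minimalPeriod M.f (M.a t) := by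
  have hinj : Function.Injective M.f := M.hf_inj
  have hv : ∀ d, Six M (M.f (M.f (M.a t))) d → ¬ M.Face v d := fun d hd =>
    (far M hb v w t hNA hg h4 d hd).1
  have hw : ∀ d, Six M (M.f (M.f (M.a t))) d → ¬ M.Face w d := fun d hd =>
    (far M hb v w t hNA hg h4 d hd).2
  have hne : ∀ i, 0 < i → i < minimalPeriod M.f (M.a t) →
      (M.f)^[i + 2] (M.a t) ≠ M.f (M.f (M.a t)) := by
    intro i hi hil h
    have h1 : (M.f)^[2] ((M.f)^[i] (M.a t)) = (M.f)^[2] (M.a t) := by
      rw [← Function.iterate_add_apply, add_comm]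
      exact h
    exact iter_ne M hi hil ((hinj.iterate 2) h1)
  have h0 : M.a t ≠ M.f (M.f (M.a t)) := fun h =>
    iter_ne M (j := 2) (by omega) (by omega) h.symm
  have h1' : M.f (M.a t) ≠ M.f (M.f (M.a t)) := fun h =>
    iter_ne M (j := 1) (by omega) (by omega) (hinj h.symm)
  have h3 : M.f (M.f (M.f (M.a t))) ≠ M.f (M.f (M.a t)) := hne 1 (by omega) (by omega)
  have hface : ∀ d, (Helper92.CA.flip M (M.f (M.f (M.a t))) g).Face (M.a t) d →
      M.Face (M.a t) d ∧ d ≠ M.f (M.f (M.a t)) := by
    rintro d ⟨n, rfl⟩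
    induction n with
    | zero => exact ⟨⟨0, rfl⟩, h0⟩
    | succ n ih =>
      rw [Function.iterate_succ_apply']
      obtain ⟨ih1, ih2⟩ := ih
      by_cases hc : M.f ((Helper92.CA.flip M (M.f (M.f (M.a t))) g).f^[n] (M.a t)) =
          M.f (M.f (M.a t))
      · rw [flip_u1 M g hc]
        exact ⟨⟨3, rfl⟩, h3⟩
      · rw [flip_u2 M hb t g ih1 ih2 hc]
        exact ⟨(face_f M).2 ih1, hc⟩
  refine ⟨⟨(face_flip M g v hv t).2 hg.onv, fun d hd => ?_, fun t' h1 h2 => ?_⟩, ?_⟩
  · rw [face_flip M g w hw]
    exact hg.nonadj d (hface d hd).1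
  · rw [face_flip M g v hv] at h1
    exact hg.once t' h1 (hface _ h2).1
  · have hit : ∀ j, j + 2 < minimalPeriod M.f (M.a t) →
        (Helper92.CA.flip M (M.f (M.f (M.a t))) g).f^[j + 2] (M.a t) = (M.f)^[j + 3] (M.a t) := by
      intro j
      induction j with
      | zero =>
        intro _
        have e1 : (Helper92.CA.flip M (M.f (M.f (M.a t))) g).f (M.a t) = M.f (M.a t) :=
          flip_u2 M hb t g ⟨0, rfl⟩ h0 h1'
        have e2 : (Helper92.CA.flip M (M.f (M.f (M.a t))) g).f (M.f (M.a t)) =
            M.f (M.f (M.f (M.a t))) := flip_u1 M g rfl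
        change (Helper92.CA.flip M (M.f (M.f (M.a t))) g).f
          ((Helper92.CA.flip M (M.f (M.f (M.a t))) g).f (M.a t)) = M.f (M.f (M.f (M.a t)))
        rw [e1, e2]
      | succ j ih =>
        intro hj
        have e3 : j + 1 + 2 = (j + 2) + 1 := by omega
        have e4 : j + 1 + 3 = (j + 3) + 1 := by omega
        rw [e3, Function.iterate_succ_apply', ih (by omega), e4,
          Function.iterate_succ_apply' M.f (j + 3) (M.a t)]
        refine flip_u2 M hb t g ⟨j + 3, rfl⟩ (hne (j + 1) (by omega) (by omega)) ?_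
        have h5 := hne (j + 2) (by omega) (by omega)
        rw [show j + 2 + 2 = (j + 3) + 1 by omega, Function.iterate_succ_apply'] at h5
        exact h5
    have hper : Function.IsPeriodicPt (Helper92.CA.flip M (M.f (M.f (M.a t))) g).f
        (minimalPeriod M.f (M.a t) - 1) (M.a t) := by
      have h6 := hit (minimalPeriod M.f (M.a t) - 3) (by omega)
      rw [show minimalPeriod M.f (M.a t) - 3 + 2 = minimalPeriod M.f (M.a t) - 1 by omega,
        show minimalPeriod M.f (M.a t) - 3 + 3 = minimalPeriod M.f (M.a t) by omega] at h6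
      change (Helper92.CA.flip M (M.f (M.f (M.a t))) g).f^[minimalPeriod M.f (M.a t) - 1] (M.a t) =
        M.a t
      rw [h6]
      exact Function.isPeriodicPt_minimalPeriod M.f (M.a t)
    have := hper.minimalPeriod_le (by omega)
    omega

end Pool.Agent.Helper66.CA
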