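import Pool.Agent.Helper66.CA.NoDual

set_option autoImplicit false

/-!
Module AE-10: if some face adjacent to the face of `v` is not adjacent to the face of `w`, then
there is such a face which is adjacent to the face of `v` only once.

Write `t_n := f^[n] t`, `k := minimalPeriod M.f t ≤ 5`.
(0) `adj_ne`: `¬ Face (a t) (a (f t))` for every `t`: `g := s (f t)`: `f (a (f t)) = g`,
 `f (a g) = s g = a t` (because `f t = s (a t)`), so we would get `Face g (a g)`, contradiction to
 `no_self`.
(1) Let `t` be as in `hna`. If `once` holds for `t` we are done. Otherwise there is `t' ≠ t` on the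
 face of `v` with `Face (a t) (a t')`. `walk_cut` with `l = [t, t']` gives a VSet `X` with
 `(X d ^^ X (a d)) = (ed t d ^^ ed t' d)`. Put `u := face of a t`.
(2) If `x` is neither on the face of `v` nor on `u`, then `X (f x) = X (a x) = X x` (`t, t'` are on
 the face of `v`, `a t, a t'` on `u`), so `X` is constant on every other face.
(3) `rep_one`: assume in addition `X w = X t`. Then `t1 := f t` is good (GoodT M v w t1).
 `X (f t) = X (a t) = !X t`; let `t' = t_j`, `0 < j < k` (`j ≠ 1` and `j ≠ k-1` by `adj_ne`, so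
 `2 ≤ j ≤ k-2 ≤ 3`). For `0 < n < j`: `X (t_(n+1)) = X (a t_n) = X t_n` (`t_n` is not `t, t'`, nor
 `a t, a t'` because of `no_self`), so `X (t_n) = !X t` for `1 ≤ n ≤ j`, and in the same way
 `X (t_n) = X t` for `j < n ≤ k`. The face of `a t1` is not the face of `v` (`no_self`), not `u`
 (`adj_ne`), `X (a t1) = X t1 = !X t`, so `X` is `!X t` on this face. The face of `w` is not the face
 of `v` (hNA) and not `u` (`a t` is at the vertex of `f t`, hNA), so `X` is `X w = X t` on it.
 nonadj: `d` on the face of `a t1`, `a d` on the face of `w`: `X d ≠ X (a d)`, so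
 `d ∈ {t, a t, t', a t'}`, but these are on the face of `v` or on `u`: contradiction.
 once: let `t'' = t_n` (`0 ≤ n < k`), `Face (a t1) (a t_n)`: then `X (a t_n) = !X t`. `n = 0` or
 `n = j`: `a t_n` is on `u`, contradiction. `n > j`: `X (a t_n) = X t_n = X t`, contradiction.
 `1 < n < j`: then `n = 2`, `j = 3`: contradiction to `adj_ne`. So `n = 1`.
(4) If `X w ≠ X t`: `X t' = !X t` (by (3): `X (t_j) = !X t`), so `X w = X t'` and `rep_one` for the
 pair `(t', t)` (the same `X`, `[t', t]` in place of `[t, t']`) shows that `f t'` is good.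
-/

namespace Pool.Agent.Helper66.CA
open Pool.Agent.Helper17.CT Function

variable {D : Type} (M : CMap D)

private theorem rep_adj [Finite D] (hs : ∀ d, ¬ M.Face d (M.a d)) (t : D) :
    ¬ M.Face (M.a t) (M.a (M.f t)) := by
  intro h
  have h1 : M.f (M.a (M.f t)) = M.s (M.f t) := by simp only [CMap.f, M.a2]
  have h2 : M.f (M.a (M.s (M.f t))) = M.a t := by simp only [CMap.f, M.a2, M.s3]
  have h3 : M.Face (M.a (M.f t)) (M.s (M.f t)) := ⟨1, h1⟩
  have h4 : M.Face (M.a (M.s (M.f t))) (M.a t) := ⟨1, h2⟩
  exact hs (M.s (M.f t)) (face_trans M (face_symm M h3)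
    (face_trans M (face_symm M h) (face_symm M h4)))

/-- The cut given by a repeated neighbour. -/
private structure Cut2 (v t t' : D) (X : D → Bool) : Prop where
  vt : M.Face v t
  vt' : M.Face v t'
  ne : t' ≠ t
  rep : M.Face (M.a t) (M.a t')
  vset : M.VSet X
  out : ∀ d, d ≠ t → d ≠ M.a t → d ≠ t' → d ≠ M.a t' → X (M.a d) = X d
  xt : X (M.a t) = !X t
  xt' : X (M.a t') = !X t'

variable {M} in
private theorem Cut2.symm [Finite D] {v t t' : D} {X : D → Bool} (h : Cut2 M v t t' X) :
    Cut2 M v t' t X :=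
  ⟨h.vt', h.vt, h.ne.symm, face_symm M h.rep, h.vset,
    fun d h1 h2 h3 h4 => h.out d h3 h4 h1 h2, h.xt', h.xt⟩

variable {M} in
/-- `X` is constant on the faces other than the one of `v` and the one of `a t`. -/
private theorem Cut2.const [Finite D] {v t t' : D} {X : D → Bool} (h : Cut2 M v t t' X)
    {x y : D} (h1 : ¬ M.Face v x) (h2 : ¬ M.Face (M.a t) x) (hxy : M.Face x y) : X y = X x := by
  obtain ⟨n, rfl⟩ := hxy
  induction n with
  | zero => rfl
  | succ n ih =>
    rw [Function.iterate_succ_apply']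
    have hf : X (M.f (M.f^[n] x)) = X (M.a (M.f^[n] x)) := h.vset _
    rw [hf, ← ih]
    have hx : M.Face x (M.f^[n] x) := ⟨n, rfl⟩
    refine h.out _ ?_ ?_ ?_ ?_
    · rintro e
      exact h1 (face_trans M h.vt (face_symm M (e ▸ hx)))
    · rintro e
      exact h2 (face_symm M (e ▸ hx))
    · rintro e
      exact h1 (face_trans M h.vt' (face_symm M (e ▸ hx)))
    · rintro e
      exact h2 (face_trans M h.rep (face_symm M (e ▸ hx)))

variable {M} in
/-- the values of `X` along the face of `v` -/
private theorem Cut2.seq [Finite D] (hs : ∀ d, ¬ M.Face d (M.a d)) {v t t' : D} {X : D → Bool}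
    (h : Cut2 M v t t' X) (h5 : minimalPeriod M.f v ≤ 5) :
    ∃ j k : ℕ, 2 ≤ j ∧ j + 2 ≤ k ∧ k ≤ 5 ∧ k = minimalPeriod M.f t ∧ M.f^[j] t = t' ∧
      (∀ n, 1 ≤ n → n ≤ j → X (M.f^[n] t) = !X t) ∧
      (∀ n, j < n → n < k → X (M.f^[n] t) = X t) ∧
      (∀ n, 0 < n → n < k → n ≠ j → X (M.a (M.f^[n] t)) = X (M.f^[n] t)) := by
  have hper : minimalPeriod M.f t = minimalPeriod M.f v := by
    obtain ⟨n, hn⟩ := h.vt
    rw [← hn]
    exact Function.minimalPeriod_apply_iterate ((ct10_f_inj M).mem_periodicPts v) n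
  have htt' : M.Face t t' := face_trans M (face_symm M h.vt) h.vt'
  obtain ⟨m, hm⟩ := htt'
  set k := minimalPeriod M.f t with hk
  have hk0 : 0 < k := Function.minimalPeriod_pos_of_mem_periodicPts
    ((ct10_f_inj M).mem_periodicPts t)
  set j := m % k with hj
  have hjt : M.f^[j] t = t' := by
    rw [hj, hk, Function.iterate_mod_minimalPeriod_eq]
    exact hm
  have hjk : j < k := Nat.mod_lt _ hk0
  have hkt : M.f^[k] t = t := Function.iterate_minimalPeriod
  have hj0 : j ≠ 0 := by
    intro e
    rw [e] at hjt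
    exact h.ne hjt.symm
  have hj1 : j ≠ 1 := by
    intro e
    rw [e] at hjt
    have : M.f t = t' := hjt
    exact rep_adj M hs t (this ▸ h.rep)
  have hj2 : j + 1 ≠ k := by
    intro e
    rw [← e, Function.iterate_succ_apply', hjt] at hkt
    have := rep_adj M hs t'
    rw [hkt] at this
    exact this (face_symm M h.rep)
  have inj : ∀ n n', n < k → n' < k → M.f^[n] t = M.f^[n'] t → n = n' := by
    intro n n' h1 h2 h3
    exact (Function.iterate_eq_iterate_iff_of_lt_minimalPeriod h1 h2).1 h3
  have hout : ∀ n, 0 < n → n < k → n ≠ j → X (M.a (M.f^[n] t)) = X (M.f^[n] t) := by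
    intro n h0 h1 h2
    have hn : M.Face t (M.f^[n] t) := ⟨n, rfl⟩
    refine h.out _ ?_ ?_ ?_ ?_
    · intro e
      have := inj n 0 h1 hk0 e
      omega
    · intro e
      exact hs t (e ▸ hn)
    · intro e
      exact h2 (inj n j h1 hjk (e.trans hjt.symm))
    · intro e
      exact hs t' (face_trans M (face_symm M ⟨j, hjt⟩) (e ▸ hn))
  have hf : ∀ n, X (M.f^[n + 1] t) = X (M.a (M.f^[n] t)) := by
    intro n
    rw [Function.iterate_succ_apply']
    exact h.vset _
  have hA : ∀ n, 1 ≤ n → n ≤ j → X (M.f^[n] t) = !X t := by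
    intro n h1
    induction n, h1 using Nat.le_induction with
    | base =>
      intro _
      rw [hf 0]
      exact h.xt
    | succ n h1 ih =>
      intro h2
      rw [hf n, hout n (by omega) (by omega) (by omega)]
      exact ih (by omega)
  have hB : ∀ n, j < n → n < k → X (M.f^[n] t) = X t := by
    intro n h1
    induction n, h1 using Nat.le_induction with
    | base =>
      intro _
      rw [hf j, hjt, h.xt', ← hjt, hA j (by omega) le_rfl, Bool.not_not]
    | succ n h1 ih =>
      intro h2
      rw [hf n, hout n (by omega) (by omega) (by omega)]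
      exact ih (by omega)
  exact ⟨j, k, by omega, by omega, by omega, rfl, hjt, hA, hB, hout⟩

variable {M} in
private theorem Cut2.good [Finite D] (hs : ∀ d, ¬ M.Face d (M.a d)) {v w t t' : D} {X : D → Bool}
    (h : Cut2 M v t t' X) (hNA : NA M v w) (h5 : minimalPeriod M.f v ≤ 5)
    (hw : X w = X t) : GoodT M v w (M.f t) := by
  obtain ⟨j, k, hj, hjk, hk5, hk, hjt, hA, hB, hout⟩ := h.seq hs h5
  have hvt1 : M.Face v (M.f t) := face_trans M h.vt ⟨1, rfl⟩
  have n1 : ¬ M.Face v (M.a (M.f t)) := fun e =>
    hs (M.f t) (face_trans M (face_symm M hvt1) e)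
  have n2 : ¬ M.Face (M.a t) (M.a (M.f t)) := rep_adj M hs t
  have x1 : X (M.a (M.f t)) = !X t := by
    have := hout 1 (by omega) (by omega) (by omega)
    rw [← hA 1 le_rfl (by omega)]
    exact this
  have nw1 : ¬ M.Face v w := fun e => hNA w w e ⟨0, rfl⟩ (Or.inl rfl)
  have nw2 : ¬ M.Face (M.a t) w := fun e =>
    hNA (M.f t) (M.a t) hvt1 (face_symm M e) (Or.inr (Or.inr (by simp only [CMap.f, M.s3])))
  refine ⟨hvt1, ?_, ?_⟩
  · intro d hd hw'
    have e1 : X d = !X t := by rw [h.const n1 n2 hd, x1]
    have e2 : X (M.a d) = X t := by rw [h.const nw1 nw2 hw', hw]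
    have m1 : ¬ M.Face v d := fun e => n1 (face_trans M e (face_symm M hd))
    have m2 : ¬ M.Face (M.a t) d := fun e => n2 (face_trans M e (face_symm M hd))
    have := h.out d (fun e => m1 (e ▸ h.vt)) (fun e => m2 (e ▸ ⟨0, rfl⟩))
      (fun e => m1 (e ▸ h.vt')) (fun e => m2 (e ▸ h.rep))
    rw [e1, e2] at this
    cases hX : X t <;> simp [hX] at this
  · intro t'' h1 h2
    have hF : M.Face t t'' := face_trans M (face_symm M h.vt) h1
    obtain ⟨m, hm⟩ := hF
    have hn : M.f^[m % k] t = t'' := by
      rw [hk, Function.iterate_mod_minimalPeriod_eq]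
      exact hm
    have hmk : m % k < k := Nat.mod_lt _ (by omega)
    generalize m % k = n at hn hmk
    have x2 : X (M.a t'') = !X t := by rw [h.const n1 n2 h2, x1]
    have c0 : n ≠ 0 := by
      rintro rfl
      have e : t = t'' := hn
      rw [← e] at h2
      exact n2 (face_symm M h2)
    have cj : n ≠ j := by
      rintro rfl
      rw [← hn, hjt] at h2
      exact n2 (face_trans M h.rep (face_symm M h2))
    have cg : ¬ j < n := by
      intro hlt
      have e1 := hout n (by omega) hmk cj
      rw [hB n hlt hmk, hn, x2] at e1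
      cases hX : X t <;> simp [hX] at e1
    have c2 : n ≠ 2 := by
      rintro rfl
      rw [← hn] at h2
      exact rep_adj M hs (M.f t) h2
    have : n = 1 := by omega
    rw [← hn, this]
    rfl

theorem exists_good [Finite D] (hp : M.Planar) {U : D → Bool} (hU : M.IsHam U) (v w : D)
    (hNA : NA M v w) (h5 : minimalPeriod M.f v ≤ 5)
    (hna : ∃ t, M.Face v t ∧ ∀ d, M.Face (M.a t) d → ¬ M.Face w (M.a d)) :
    ∃ t, GoodT M v w t := by
  have hs : ∀ d, ¬ M.Face d (M.a d) := no_self M hp hU
  obtain ⟨t, ht, hn⟩ := hna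
  by_cases hone : ∀ t', M.Face v t' → M.Face (M.a t) (M.a t') → t' = t
  · exact ⟨t, ht, hn, hone⟩
  push Not at hone
  obtain ⟨t', ht', hr, hne⟩ := hone
  obtain ⟨X, hX, hXe⟩ := walk_cut M hp [t, t'] (by
    intro φ hφ
    have e1 : φ t = φ t' := face_eq M hφ (face_trans M (face_symm M ht) ht')
    have e2 : φ (M.a t) = φ (M.a t') := face_eq M hφ hr
    simp [e1, e2])
  have htt : M.Face t t' := face_trans M (face_symm M ht) ht'
  have hC : Cut2 M v t t' X := by
    refine ⟨ht, ht', hne, hr, hX, ?_, ?_, ?_⟩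
    · intro d h1 h2 h3 h4
      have := hXe d
      have e1 : ed M t d = false := (ed_false M t d).2 ⟨h1, h2⟩
      have e2 : ed M t' d = false := (ed_false M t' d).2 ⟨h3, h4⟩
      simp only [List.map_cons, List.map_nil, xl_cons, xl_nil, e1, e2] at this
      revert this
      cases X d <;> cases X (M.a d) <;> simp
    · have := hXe t
      have e1 : ed M t t = true := (ed_iff M t t).2 (Or.inl rfl)
      have e2 : ed M t' t = false := (ed_false M t' t).2 ⟨hne.symm, fun e => by
        apply hs t'
        rw [← e]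
        exact face_symm M htt⟩
      simp only [List.map_cons, List.map_nil, xl_cons, xl_nil, e1, e2] at this
      revert this
      cases X t <;> cases X (M.a t) <;> simp
    · have := hXe t'
      have e1 : ed M t t' = false := (ed_false M t t').2 ⟨hne, fun e => by
        apply hs t
        rw [← e]
        exact htt⟩
      have e2 : ed M t' t' = true := (ed_iff M t' t').2 (Or.inl rfl)
      simp only [List.map_cons, List.map_nil, xl_cons, xl_nil, e1, e2] at this
      revert this
      cases X t' <;> cases X (M.a t') <;> simp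
  by_cases hw : X w = X t
  · exact ⟨M.f t, hC.good hs hNA h5 hw⟩
  · obtain ⟨j, k, hj, hjk, hk5, hk, hjt, hA, hB, hout⟩ := hC.seq hs h5
    have e : X t' = !X t := by
      rw [← hjt]
      exact hA j (by omega) le_rfl
    refine ⟨M.f t', hC.symm.good hs hNA h5 ?_⟩
    rw [e]
    revert hw
    cases X w <;> cases X t <;> simp

end Pool.Agent.Helper66.CA
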