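import Pool.Agent.Helper17.CT.Defs

set_option autoImplicit false

/-!
Project Cantoni (MP_16e137_co), alternation evenness.
`Intl M A B U`: every vertex set without a dart of `A` and with all darts of `B` is left by at
least four darts of `U`.
-/

namespace Pool.Agent.Helper66.CA
open Pool.Agent.Helper17.CT

variable {D : Type}

/-- `U` is interlaced between `A` and `B`. -/
def Intl (M : CMap D) (A B : D → Prop) (U : D → Bool) : Prop :=
  ∀ J : D → Bool, M.VSet J → (∀ d, A d → J d = false) → (∀ d, B d → J d = true) →
    4 ≤ Nat.card {d : D // U d = true ∧ J d = true ∧ J (M.a d) = false}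

/-- The number of Hamilton cycles which are interlaced between the faces of `v` and `w`. -/
noncomputable def NI (M : CMap D) (v w : D) : ℕ :=
  Nat.card {U : D → Bool // M.IsHam U ∧ Intl M (M.Face v) (M.Face w) U}

end Pool.Agent.Helper66.CA
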