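import Pool.Agent.Helper66.CA.Base
import Pool.Agent.Helper92.CA.Defs

set_option autoImplicit false

/-!
Module AE-12: faces without a dart at the gadget are unchanged by the flip and by the deletion.

Let no dart of the face of `v` be one of the six. If `x` is on the face of `v` then `f x = s (a x)`
is on it, so `f x` is not one of the six, hence `a x` is not one of the six (`six_s`). So
`(flip M e g).f x = fs M e (a x) = s (a x) = f x` (`fs_out`), and for the deletion
`fa M e x = a x` (`fa_out`: `x ≠ a (s e)` etc., because `a x` is not one of the six) and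
`(del M e g).f x = s (a x) = f x`. By induction on `n` the iterates agree.
Then `Face` agrees: `M.Face v x` iff some iterate is `x`; and the minimal period agrees:
`IsPeriodicPt` of the two functions at `v` for `n` is the same condition
(`minimalPeriod` is determined by it, for example by `Function.minimalPeriod` dvd lemmas or
`Function.IsPeriodicPt.minimalPeriod_dvd` in both directions).
-/

namespace Pool.Agent.Helper66.CA
open Pool.Agent.Helper17.CT Pool.Agent.Helper92.CA Function

variable {D : Type} (M : CMap D)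

private theorem not_six_a {e : D} (v : D) (hv : ∀ d, Six M e d → ¬ M.Face v d) {x : D}
    (hx : M.Face v x) : ¬ Six M e (M.a x) := by
  intro h
  have h1 : Six M e (M.s (M.a x)) := six_s.2 h
  exact hv _ h1 (face_trans M hx ⟨1, rfl⟩)

private theorem step_flip {e : D} (g : Gad M e) (v : D) (hv : ∀ d, Six M e d → ¬ M.Face v d) {x : D}
    (hx : M.Face v x) : (Helper92.CA.flip M e g).f x = M.f x :=
  fs_out (not_six_a M v hv hx)

theorem iter_flip {e : D} (g : Gad M e) (v : D) (hv : ∀ d, Six M e d → ¬ M.Face v d) (n : ℕ) :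
    ((Helper92.CA.flip M e g).f)^[n] v = (M.f)^[n] v := by
  induction n with
  | zero => rfl
  | succ n ih =>
    rw [iterate_succ_apply', iterate_succ_apply', ih]
    exact step_flip M g v hv ⟨n, rfl⟩

theorem face_flip {e : D} (g : Gad M e) (v : D) (hv : ∀ d, Six M e d → ¬ M.Face v d) (x : D) :
    (Helper92.CA.flip M e g).Face v x ↔ M.Face v x := by
  unfold CMap.Face
  simp only [iter_flip M g v hv]

theorem period_flip {e : D} (g : Gad M e) (v : D) (hv : ∀ d, Six M e d → ¬ M.Face v d) :
    minimalPeriod (Helper92.CA.flip M e g).f v = minimalPeriod M.f v := by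
  have key : ∀ n, IsPeriodicPt (Helper92.CA.flip M e g).f n v ↔ IsPeriodicPt M.f n v := by
    intro n
    unfold IsPeriodicPt IsFixedPt
    rw [iter_flip M g v hv]
  refine Nat.dvd_antisymm ?_ ?_
  · exact ((key _).2 (isPeriodicPt_minimalPeriod _ _)).minimalPeriod_dvd
  · exact ((key _).1 (isPeriodicPt_minimalPeriod _ _)).minimalPeriod_dvd

private theorem step_del {e : D} (g : Gad M e) (v : D) (hv : ∀ d, Six M e d → ¬ M.Face v d) {x : D}
    (hx : M.Face v x) (h0 : ¬ Six M e x) : ((del M e g).f ⟨x, h0⟩).1 = M.f x := by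
  have h1 := not_six_a M v hv hx
  change M.s (fa M e x) = M.s (M.a x)
  congr 1
  refine fa_out (fun q => h1 ?_) (fun q => h1 ?_) (fun q => h1 ?_) (fun q => h1 ?_)
  · rw [q, M.a2]; exact Or.inr (Or.inl rfl)
  · rw [q, M.a2]; exact Or.inr (Or.inr (Or.inl rfl))
  · rw [q, M.a2]; exact Or.inr (Or.inr (Or.inr (Or.inr (Or.inl rfl))))
  · rw [q, M.a2]; exact Or.inr (Or.inr (Or.inr (Or.inr (Or.inr rfl))))

theorem iter_del {e : D} (g : Gad M e) (v : D) (hv : ∀ d, Six M e d → ¬ M.Face v d)
    (h0 : ¬ Six M e v) (n : ℕ) :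
    (((del M e g).f)^[n] ⟨v, h0⟩).1 = (M.f)^[n] v := by
  induction n with
  | zero => rfl
  | succ n ih =>
    rw [iterate_succ_apply', iterate_succ_apply', ← ih]
    have hx : M.Face v (((del M e g).f)^[n] ⟨v, h0⟩).1 := ⟨n, ih.symm⟩
    exact step_del M g v hv hx (((del M e g).f)^[n] ⟨v, h0⟩).2

theorem face_del {e : D} (g : Gad M e) (v : D) (hv : ∀ d, Six M e d → ¬ M.Face v d)
    (h0 : ¬ Six M e v) (x : {d : D // ¬ Six M e d}) :
    (del M e g).Face ⟨v, h0⟩ x ↔ M.Face v x.1 := by
  unfold CMap.Face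
  constructor
  · rintro ⟨n, hn⟩
    exact ⟨n, by rw [← hn]; exact (iter_del M g v hv h0 n).symm⟩
  · rintro ⟨n, hn⟩
    exact ⟨n, Subtype.ext (by rw [iter_del M g v hv h0 n, hn])⟩

theorem period_del {e : D} (g : Gad M e) (v : D) (hv : ∀ d, Six M e d → ¬ M.Face v d)
    (h0 : ¬ Six M e v) :
    minimalPeriod (del M e g).f ⟨v, h0⟩ = minimalPeriod M.f v := by
  have key : ∀ n, IsPeriodicPt (del M e g).f n ⟨v, h0⟩ ↔ IsPeriodicPt M.f n v := by
    intro n
    unfold IsPeriodicPt IsFixedPt
    rw [← iter_del M g v hv h0]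
    exact ⟨fun h => congrArg Subtype.val h, fun h => Subtype.ext h⟩
  refine Nat.dvd_antisymm ?_ ?_
  · exact ((key _).2 (isPeriodicPt_minimalPeriod _ _)).minimalPeriod_dvd
  · exact ((key _).1 (isPeriodicPt_minimalPeriod _ _)).minimalPeriod_dvd

end Pool.Agent.Helper66.CA
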