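import Pool.Agent.Helper66.CA.Base
import Pool.Agent.Helper92.CA.Defs

set_option autoImplicit false

/-!
Module AE-11: in a simple map every edge can be flipped and deleted.

`n1`, `n2`: `a e` at the vertex of `e` is a loop (`M.Simple`, first part). `x1`: suppose
`Six M e (a (s e))`. If `a (s e)` is one of `e, s e, s (s e)` then it is at the vertex of `s e`: a
loop. If it is one of `a e, s (a e), s (s (a e))`: `e` and `s e` are at one vertex, `a e` and
`a (s e)` at one vertex, so `e = s e` by the second part of `M.Simple`, contradiction to `s1`.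
`x2`, `y1`, `y2`: the same with `s (s e)`, `s (a e)`, `s (s (a e))` (for the last two use `a (a e) = e`).
-/

namespace Pool.Agent.Helper66.CA
open Pool.Agent.Helper17.CT Pool.Agent.Helper92.CA Function

variable {D : Type} (M : CMap D)

private lemma gad_symm {x y : D} (h : M.VEq x y) : M.VEq y x := by
  rcases h with h | h | h
  · exact Or.inl h.symm
  · exact Or.inr (Or.inr (by rw [h, M.s3]))
  · exact Or.inr (Or.inl (by rw [h, M.s3]))

private lemma gad_trans {x y z : D} (h : M.VEq x y) (h' : M.VEq y z) : M.VEq x z := by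
  rcases h with h | h | h <;> rcases h' with h' | h' | h' <;> subst h <;> subst h' <;>
    simp [CMap.VEq, M.s3]

private lemma gad_six {e d : D} : Six M e d ↔ M.VEq e d ∨ M.VEq (M.a e) d := by
  unfold Six CMap.VEq
  tauto

private lemma gad_aux (h : M.Simple) {e z : D} (hz : M.VEq e z) (hne : e ≠ z) :
    ¬ M.VEq e (M.a z) ∧ ¬ M.VEq (M.a e) (M.a z) :=
  ⟨fun h1 => h.1 z (gad_trans M (gad_symm M hz) h1), fun h1 => hne (h.2 e z hz h1)⟩

theorem gad_of_simple (h : M.Simple) (e : D) : Gad M e := by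
  have v1 : ∀ d, M.VEq d (M.s d) := fun d => Or.inr (Or.inl rfl)
  have v2 : ∀ d, M.VEq d (M.s (M.s d)) := fun d => Or.inr (Or.inr rfl)
  have k1 := gad_aux M h (v1 e) (M.s1 e).symm
  have k2 := gad_aux M h (v2 e) (ss_ne M e).symm
  have k3 := gad_aux M h (v1 (M.a e)) (M.s1 (M.a e)).symm
  have k4 := gad_aux M h (v2 (M.a e)) (ss_ne M (M.a e)).symm
  rw [M.a2] at k3 k4
  refine ⟨fun h1 => h.1 e (Or.inr (Or.inl h1)), fun h1 => h.1 e (Or.inr (Or.inr h1)), ?_, ?_, ?_, ?_⟩
  · rw [gad_six]; tauto
  · rw [gad_six]; tauto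
  · rw [gad_six]; tauto
  · rw [gad_six]; tauto

end Pool.Agent.Helper66.CA
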