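import Pool.Agent.Helper66.CA.Base

set_option autoImplicit false

/-!
Module AE-02: cuts and Hamilton cycles.

`ham_const`: every vertex has a dart of `U` (from `hU.one`), and `X` is constant at the vertex
(VSet), so it is enough to compare darts `x`, `y` of `U`; then `hU.conn` and induction on the
chain: a step is `y = a x` with `U x` (use `h`) or inside a vertex. (If `X x ≠ X y`, `ct10_cross`
of Helper63/CT/M10 gives a dart `d` of `U` with `X d = true`, `X (a d) = false`.)

`ham_two`: the number is even by `ct10_cut_even` (Helper63/CT/M10, with `Z := U`,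
`even_of_ham`; reorder the conjunction) and positive by `ham_const` (if it were zero, then no dart
of `U` leaves `X`, and, applying `a`, none enters).
-/

namespace Pool.Agent.Helper66.CA
open Pool.Agent.Helper17.CT Function

variable {D : Type} (M : CMap D)

/-- every vertex has a dart of `U` on which `X` has the same value -/
private lemma ham_rep {U X : D → Bool} (hU : M.IsHam U) (hX : M.VSet X) (x : D) :
    ∃ x', U x' = true ∧ X x' = X x := by
  rcases hU.one x with ⟨_, h, _⟩ | ⟨h, _, _⟩ | ⟨h, _, _⟩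
  · exact ⟨M.s x, h, hX x⟩
  · exact ⟨x, h, rfl⟩
  · exact ⟨x, h, rfl⟩

theorem ham_const {U X : D → Bool} (hU : M.IsHam U) (hX : M.VSet X)
    (h : ∀ d, U d = true → X (M.a d) = X d) (x y : D) : X x = X y := by
  obtain ⟨x', hx', hx⟩ := ham_rep M hU hX x
  obtain ⟨y', hy', hy⟩ := ham_rep M hU hX y
  rw [← hx, ← hy]
  have hc := hU.conn x' y' hx' hy'
  clear hx hy hy' hx'
  induction hc with
  | refl => rfl
  | tail _ hst ih =>
    rename_i b c _
    obtain ⟨h1, _, h3⟩ := hst
    rcases h3 with h3 | h3 | h3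
    · rw [h3, h b h1]; exact ih
    · rw [h3, hX]; exact ih
    · rw [h3, hX, hX]; exact ih

theorem ham_two [Finite D] {U X : D → Bool} (hU : M.IsHam U) (hX : M.VSet X)
    (hx : ∃ x, X x = true) (hy : ∃ y, X y = false) :
    2 ≤ Nat.card {d : D // U d = true ∧ X d = true ∧ X (M.a d) = false} := by
  obtain ⟨x, hx⟩ := hx
  obtain ⟨y, hy⟩ := hy
  obtain ⟨x', hx', hxx⟩ := ham_rep M hU hX x
  obtain ⟨y', hy', hyy⟩ := ham_rep M hU hX y
  rw [hx] at hxx
  rw [hy] at hyy
  obtain ⟨d, hd1, hd2⟩ := ct10_cross M U X hX (hU.conn x' y' hx' hy') hxx hyy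
  have hev := ct10_cut_even M U (even_of_ham M U hU) X hX
  have hcard : Nat.card {d : D // (X d = true ∧ X (M.a d) = false) ∧ U d = true} =
      Nat.card {d : D // U d = true ∧ X d = true ∧ X (M.a d) = false} := by
    refine Nat.card_congr (Equiv.subtypeEquivRight ?_)
    intro e
    exact ⟨fun h => ⟨h.2, h.1⟩, fun h => ⟨h.2, h.1⟩⟩
  rw [hcard] at hev
  have hpos : 0 < Nat.card {d : D // U d = true ∧ X d = true ∧ X (M.a d) = false} := by
    have : Nonempty {d : D // U d = true ∧ X d = true ∧ X (M.a d) = false} :=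
      ⟨⟨d, hd2, hd1⟩⟩
    exact Nat.card_pos
  obtain ⟨m, hm⟩ := hev
  omega

end Pool.Agent.Helper66.CA
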