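import Pool.Agent.Helper66.CA.Walk
import Pool.Agent.Helper66.CA.HamCut

set_option autoImplicit false

/-!
Module AE-03: a closed dual walk avoiding a Hamilton cycle is trivial.

`no_dual`: take `X` from `walk_cut`. If `U d = true` then for every `g ∈ l` we have `d ≠ g` and
`d ≠ a g` (as `U g = false` and `U (a g) = U g`), so `xl (l.map ...) = false` and
`X (a d) = X d`. By `ham_const` (HamCut) `X` is constant, so all `xl (...) = false`.

`no_self`: `l = [d]`: if `Face d (a d)` then `φ d = φ (a d)` for every face function
(`face_eq`), so the walk condition holds. `U d = false` because `U` is the boundary of a face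
function (`M.Planar` and `even_of_ham`). `no_dual` at `d` gives `ed M d d = false`, contradiction.
-/

namespace Pool.Agent.Helper66.CA
open Pool.Agent.Helper17.CT Function

variable {D : Type} (M : CMap D)

private theorem nd_xl_false {α : Type} (l : List α) (g : α → Bool)
    (h : ∀ x ∈ l, g x = false) : xl (l.map g) = false := by
  induction l with
  | nil => rfl
  | cons x l ih =>
    rw [List.map_cons, xl_cons, h x List.mem_cons_self,
      ih fun y hy => h y (List.mem_cons_of_mem x hy)]
    rfl

theorem no_dual [Finite D] (hp : M.Planar) {U : D → Bool} (hU : M.IsHam U) (l : List D)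
    (hl : ∀ φ : D → Bool, (∀ d, φ (M.f d) = φ d) →
      xl (l.map fun g => φ g ^^ φ (M.a g)) = false)
    (hout : ∀ g ∈ l, U g = false) (d : D) : xl (l.map fun g => ed M g d) = false := by
  obtain ⟨X, hX, hXl⟩ := walk_cut M hp l hl
  have h : ∀ d, U d = true → X (M.a d) = X d := by
    intro d hd
    have h1 : xl (l.map fun g => ed M g d) = false := by
      apply nd_xl_false
      intro g hg
      rw [ed_false]
      have h2 := hout g hg
      constructor
      · rintro rfl
        rw [hd] at h2
        exact absurd h2 (by decide)
      · rintro rfl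
        rw [hU.acl, h2] at hd
        exact absurd hd (by decide)
    have h3 := hXl d
    rw [h1] at h3
    have key : ∀ x y : Bool, (x ^^ y) = false → y = x := by decide
    exact key _ _ h3
  have h4 := ham_const M hU hX h d (M.a d)
  rw [← hXl d, ← h4]
  exact Bool.xor_self _

theorem no_self [Finite D] (hp : M.Planar) {U : D → Bool} (hU : M.IsHam U) (d : D) :
    ¬ M.Face d (M.a d) := by
  intro hf
  have key : ∀ φ : D → Bool, (∀ d, φ (M.f d) = φ d) → (φ d ^^ φ (M.a d)) = false := by
    intro φ hφ
    have h1 := face_eq M hφ hf
    rw [h1]
    exact Bool.xor_self _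
  obtain ⟨φ, hφ, hZ⟩ := hp U (even_of_ham M U hU)
  have hUd : U d = false := by rw [hZ]; exact key φ hφ
  have h2 := no_dual M hp hU [d] (by
    intro ψ hψ
    have h3 := key ψ hψ
    show ((ψ d ^^ ψ (M.a d)) ^^ false) = false
    rw [h3]
    rfl) (by
    intro g hg
    rw [List.mem_singleton] at hg
    rw [hg]
    exact hUd) d
  have h4 : ed M d d = true := by
    rw [ed_iff]
    exact Or.inl rfl
  have h5 : (ed M d d ^^ false) = false := h2
  rw [h4] at h5
  exact absurd h5 (by decide)

end Pool.Agent.Helper66.CA
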