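import Pool.Agent.Helper66.CA.Base
import Pool.Agent.Helper75.CT.ColParity
import Pool.Agent.Helper92.CA.Defs

set_option autoImplicit false

/-!
Module AE-05: loops and parallel edges.

CASE LOOP: `M.VEq d (a d)`. There is no Hamilton cycle: let `p` be the third dart at the vertex
(the one different from `d` and `a d`). `One` at this vertex and `U (a d) = U d` give `U d = true`,
`U (a d) = true`, `U p = false`. So `{d, a d}` is closed under steps inside `U`, hence these are
all darts of `U` (`conn`). But the vertex of `a p` has a dart of `U`, which is `d` or `a d`, so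
`a p` is at the vertex of `d`, `a p ∈ {d, a d, p}`: impossible. So `NI = 0`.

CASE PARALLEL (no loops): `d ≠ d'`, `VEq d d'`, `VEq (a d) (a d')`. Let `σ` be the involution of
`D` with `d ↔ d'`, `a d ↔ a d'` and identity elsewhere (the four darts are different: no loops). It
commutes with `a` and preserves the vertices (`VEq x (σ x)`). If `U` is a Hamilton cycle, so is
`U ∘ σ`: `acl` clear, `one`: the three values at a vertex are permuted, `conn`: `σ` maps steps
inside `U` to steps (or equalities) inside `U ∘ σ`. `Intl` is kept: for a VSet `J` we have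
`J (σ x) = J x`, so `d ↦ σ d` is a bijection between the two sets of leaving darts.
`U ∘ σ ≠ U`: otherwise `U d = U d'`; both false is impossible (`One`); both true: the third darts
`p` at `d` and `q` at `a d` are not in `U`, `{d, d', a d, a d'}` is closed under steps, so it is the
set of all darts of `U`, so every dart is at the vertex of `d` or at the vertex of `a d`. By `hNA`
the darts on the face of `v` are all at one of these two vertices and the darts on the face of `w`
at the other one; `J` := the vertex of `w` is a VSet, it is left by at most 2 darts of `U` (there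
are two darts of `U` at this vertex), contradiction to `Intl`.
So `U ↦ U ∘ σ` is a fixed point free involution on `{U // IsHam ∧ Intl}`: even cardinality
(for example `ct_even_of_invol` of Helper75/CT/ColParity, or `Function.Involutive` card lemmas).
-/

namespace Pool.Agent.Helper66.CA
open Pool.Agent.Helper17.CT Function

variable {D : Type} (M : CMap D)

private theorem par_one (U : D → Bool) (x : D) :
    One (U x) (U (M.s x)) (U (M.s (M.s x))) ↔
      ∃ q, M.VEq x q ∧ ∀ y, M.VEq x y → (U y = false ↔ y = q) := by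
  have h1 : M.s x ≠ x := M.s1 x
  have h2 : M.s (M.s x) ≠ M.s x := M.s1 _
  have h3 : M.s (M.s x) ≠ x := M.hss_ne x
  constructor
  · rintro (⟨e1, e2, e3⟩ | ⟨e1, e2, e3⟩ | ⟨e1, e2, e3⟩)
    · refine ⟨x, M.veq_refl x, ?_⟩
      rintro y (rfl | rfl | rfl)
      · simp [e1]
      · simp [e2, h1]
      · simp [e3, h3]
    · refine ⟨M.s x, M.veq_s x, ?_⟩
      rintro y (rfl | rfl | rfl)
      · simp [e1, h1.symm]
      · simp [e2]
      · simp [e3, h2]
    · refine ⟨M.s (M.s x), M.veq_ss x, ?_⟩
      rintro y (rfl | rfl | rfl)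
      · simp [e1, h3.symm]
      · simp [e2, h2.symm]
      · simp [e3]
  · rintro ⟨q, hq, h⟩
    have a1 := h x (M.veq_refl x)
    have a2 := h (M.s x) (M.veq_s x)
    have a3 := h (M.s (M.s x)) (M.veq_ss x)
    rcases hq with rfl | rfl | rfl
    · left
      refine ⟨a1.2 rfl, ?_, ?_⟩
      · simpa using mt a2.1 h1
      · simpa using mt a3.1 h3
    · right; left
      refine ⟨?_, a2.2 rfl, ?_⟩
      · simpa using mt a1.1 h1.symm
      · simpa using mt a3.1 h2
    · right; right
      refine ⟨?_, ?_, a3.2 rfl⟩
      · simpa using mt a1.1 h3.symm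
      · simpa using mt a2.1 h2.symm

/-- there is a dart of `U` at every vertex -/
private theorem par_ex {U : D → Bool} (hU : M.IsHam U) (x : D) : ∃ y, M.VEq x y ∧ U y = true := by
  rcases hU.one x with ⟨e1, e2, e3⟩ | ⟨e1, e2, e3⟩ | ⟨e1, e2, e3⟩
  · exact ⟨_, M.veq_s x, e2⟩
  · exact ⟨_, M.veq_refl x, e1⟩
  · exact ⟨_, M.veq_refl x, e1⟩

/-- two different darts of `U` at a vertex: every dart of `U` at this vertex is one of them -/
private theorem par_two {U : D → Bool} (hU : M.IsHam U) {x x' y : D} (hne : x ≠ x')
    (hx : U x = true) (hx' : U x' = true) (h : M.VEq x x') (hy : M.VEq x y) (hyt : U y = true) :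
    y = x ∨ y = x' := by
  obtain ⟨q, hq, hqq⟩ := (par_one M U x).1 (hU.one x)
  have q1 : x ≠ q := fun e => by
    have := (hqq x (M.veq_refl x)).2 e
    rw [hx] at this
    exact absurd this (by simp)
  have q2 : x' ≠ q := fun e => by
    have := (hqq x' h).2 e
    rw [hx'] at this
    exact absurd this (by simp)
  have q3 : y ≠ q := fun e => by
    have := (hqq y hy).2 e
    rw [hyt] at this
    exact absurd this (by simp)
  have n1 : M.s x ≠ x := M.s1 x
  have n2 : M.s (M.s x) ≠ M.s x := M.s1 _
  have n3 : M.s (M.s x) ≠ x := M.hss_ne x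
  rcases h with h | h | h
  · exact absurd h.symm hne
  · rcases hy with hy | hy | hy
    · exact Or.inl hy
    · exact Or.inr (hy.trans h.symm)
    · rcases hq with hq | hq | hq
      · exact absurd hq.symm q1
      · exact absurd (h.trans hq.symm) q2
      · exact absurd (hy.trans hq.symm) q3
  · rcases hy with hy | hy | hy
    · exact Or.inl hy
    · rcases hq with hq | hq | hq
      · exact absurd hq.symm q1
      · exact absurd (hy.trans hq.symm) q3
      · exact absurd (h.trans hq.symm) q2
    · exact Or.inr (hy.trans h.symm)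

/-- at most one dart at a vertex is not in `U` -/
private theorem par_false {U : D → Bool} (hU : M.IsHam U) {x x' : D}
    (hx : U x = false) (hx' : U x' = false) (h : M.VEq x x') : x = x' := by
  obtain ⟨q, hq, hqq⟩ := (par_one M U x).1 (hU.one x)
  rw [(hqq x (M.veq_refl x)).1 hx, (hqq x' h).1 hx']

private theorem par_loop {U : D → Bool} (hU : M.IsHam U) (d : D) : ¬ M.VEq d (M.a d) := by
  intro hl
  have hne : d ≠ M.a d := (M.a1 d).symm
  have ht : U d = true := by
    by_contra h
    rw [Bool.not_eq_true] at h
    exact hne (par_false M hU h (by rw [hU.acl]; exact h) hl)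
  have ht' : U (M.a d) = true := by rw [hU.acl]; exact ht
  have hcl : ∀ y, Conn M.s M.a U d y → y = d ∨ y = M.a d := by
    intro y hy
    induction hy with
    | refl => exact Or.inl rfl
    | @tail b c _ h ih =>
      obtain ⟨hb, hc, h⟩ := h
      have hbc : c = M.a b ∨ M.VEq b c := by
        rcases h with h | h | h
        · exact Or.inl h
        · exact Or.inr (Or.inr (Or.inl h))
        · exact Or.inr (Or.inr (Or.inr h))
      rcases hbc with h | h
      · rcases ih with e | e
        · right; rw [h, e]
        · left; rw [h, e, M.a2]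
      · have : M.VEq d c := by
          rcases ih with e | e
          · rw [← e]; exact h
          · exact M.veq_trans hl (e ▸ h)
        exact par_two M hU hne ht ht' hl this hc
  -- the third dart
  obtain ⟨q, hq, hqq⟩ := (par_one M U d).1 (hU.one d)
  have hqf : U q = false := (hqq q hq).2 rfl
  have hall : ∀ y, U y = true → y = d ∨ y = M.a d := fun y hy => hcl y (hU.conn d y ht hy)
  obtain ⟨y, hy, hyt⟩ := par_ex M hU (M.a q)
  have hyd : M.VEq d y := by
    rcases hall y hyt with e | e
    · rw [e]; exact M.veq_refl d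
    · rw [e]; exact hl
  have haq : M.VEq d (M.a q) := M.veq_trans hyd (M.veq_symm hy)
  have hf : U (M.a q) = false := by rw [hU.acl]; exact hqf
  exact M.a1 q ((hqq _ haq).1 hf)

section
variable {M}
variable {d d' : D}

open Classical in
private noncomputable def sg (M : CMap D) (d d' : D) : Equiv.Perm D :=
  Equiv.swap d d' * Equiv.swap (M.a d) (M.a d')

variable (hL : ∀ d, ¬ M.VEq d (M.a d)) (hne : d ≠ d') (h1 : M.VEq d d')
    (h2 : M.VEq (M.a d) (M.a d'))

include hL h1 in
private theorem sg_ne : M.a d ≠ d ∧ M.a d ≠ d' ∧ M.a d' ≠ d ∧ M.a d' ≠ d' := by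
  refine ⟨M.a1 d, ?_, ?_, M.a1 d'⟩
  · intro e
    exact hL d (e ▸ h1)
  · intro e
    apply hL d'
    rw [e]
    exact M.veq_symm h1

include hL h1 in
private theorem sg_vals : sg M d d' d = d' ∧ sg M d d' d' = d ∧ sg M d d' (M.a d) = M.a d' ∧
    sg M d d' (M.a d') = M.a d ∧
    ∀ x, x ≠ d → x ≠ d' → x ≠ M.a d → x ≠ M.a d' → sg M d d' x = x := by
  classical
  obtain ⟨n1, n2, n3, n4⟩ := sg_ne hL h1
  refine ⟨?_, ?_, ?_, ?_, ?_⟩
  · rw [sg, Equiv.Perm.mul_apply, Equiv.swap_apply_of_ne_of_ne n1.symm n3.symm,
      Equiv.swap_apply_left]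
  · rw [sg, Equiv.Perm.mul_apply, Equiv.swap_apply_of_ne_of_ne n2.symm n4.symm,
      Equiv.swap_apply_right]
  · rw [sg, Equiv.Perm.mul_apply, Equiv.swap_apply_left, Equiv.swap_apply_of_ne_of_ne n3 n4]
  · rw [sg, Equiv.Perm.mul_apply, Equiv.swap_apply_right, Equiv.swap_apply_of_ne_of_ne n1 n2]
  · intro x e1 e2 e3 e4
    rw [sg, Equiv.Perm.mul_apply, Equiv.swap_apply_of_ne_of_ne e3 e4,
      Equiv.swap_apply_of_ne_of_ne e1 e2]

include hL h1 in
private theorem sg_sg (x : D) : sg M d d' (sg M d d' x) = x := by
  obtain ⟨v1, v2, v3, v4, v5⟩ := sg_vals hL h1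
  by_cases e1 : x = d
  · rw [e1, v1, v2]
  by_cases e2 : x = d'
  · rw [e2, v2, v1]
  by_cases e3 : x = M.a d
  · rw [e3, v3, v4]
  by_cases e4 : x = M.a d'
  · rw [e4, v4, v3]
  rw [v5 x e1 e2 e3 e4, v5 x e1 e2 e3 e4]

include hL h1 in
private theorem sg_a (x : D) : sg M d d' (M.a x) = M.a (sg M d d' x) := by
  obtain ⟨v1, v2, v3, v4, v5⟩ := sg_vals hL h1
  by_cases e1 : x = d
  · rw [e1, v1, v3]
  by_cases e2 : x = d'
  · rw [e2, v2, v4]
  by_cases e3 : x = M.a d
  · rw [e3, v3, M.a2, M.a2, v1]
  by_cases e4 : x = M.a d'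
  · rw [e4, v4, M.a2, M.a2, v2]
  rw [v5 x e1 e2 e3 e4, v5 (M.a x)]
  · intro e; exact e3 (by rw [← e, M.a2])
  · intro e; exact e4 (by rw [← e, M.a2])
  · intro e; exact e1 (M.ha_inj e)
  · intro e; exact e2 (M.ha_inj e)

include hL h1 h2 in
private theorem sg_veq (x : D) : M.VEq x (sg M d d' x) := by
  obtain ⟨v1, v2, v3, v4, v5⟩ := sg_vals hL h1
  by_cases e1 : x = d
  · rw [e1, v1]; exact h1
  by_cases e2 : x = d'
  · rw [e2, v2]; exact M.veq_symm h1
  by_cases e3 : x = M.a d
  · rw [e3, v3]; exact h2
  by_cases e4 : x = M.a d'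
  · rw [e4, v4]; exact M.veq_symm h2
  rw [v5 x e1 e2 e3 e4]; exact M.veq_refl x

include hL h1 h2 in
private theorem sg_ham {U : D → Bool} (hU : M.IsHam U) :
    M.IsHam (fun x => U (sg M d d' x)) := by
  refine ⟨?_, ?_, ?_⟩
  · intro x
    simp only [sg_a hL h1, hU.acl]
  · intro x
    refine (par_one M (fun x => U (sg M d d' x)) x).2 ?_
    obtain ⟨q, hq, hqq⟩ := (par_one M U x).1 (hU.one x)
    refine ⟨sg M d d' q, M.veq_trans hq (sg_veq hL h1 h2 q), ?_⟩
    intro y hy
    have := hqq (sg M d d' y) (M.veq_trans hy (sg_veq hL h1 h2 y))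
    simp only [this]
    constructor
    · intro e; rw [← e, sg_sg hL h1]
    · intro e; rw [e, sg_sg hL h1]
  · intro x y hx hy
    have := hU.conn _ _ hx hy
    have hlift : Step M.s M.a U ≤ Function.onFun
        (Relation.ReflTransGen (Step M.s M.a (fun x => U (sg M d d' x))))
        (fun z => sg M d d' z) := by
      rintro b c ⟨hb, hc, h⟩
      have hb' : U (sg M d d' (sg M d d' b)) = true := by rw [sg_sg hL h1]; exact hb
      have hc' : U (sg M d d' (sg M d d' c)) = true := by rw [sg_sg hL h1]; exact hc
      have hbc : c = M.a b ∨ M.VEq b c := by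
        rcases h with h | h | h
        · exact Or.inl h
        · exact Or.inr (Or.inr (Or.inl h))
        · exact Or.inr (Or.inr (Or.inr h))
      rcases hbc with h | h
      · refine Relation.ReflTransGen.single ⟨hb', hc', Or.inl ?_⟩
        show sg M d d' c = M.a (sg M d d' b)
        rw [h, sg_a hL h1]
      · have hv : M.VEq (sg M d d' b) (sg M d d' c) :=
          M.veq_trans (M.veq_symm (sg_veq hL h1 h2 b)) (M.veq_trans h (sg_veq hL h1 h2 c))
        rcases hv with e | e | e
        · show Relation.ReflTransGen _ (sg M d d' b) (sg M d d' c)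
          rw [e]
        · exact Relation.ReflTransGen.single ⟨hb', hc', Or.inr (Or.inl e)⟩
        · exact Relation.ReflTransGen.single ⟨hb', hc', Or.inr (Or.inr e)⟩
    have key := Relation.ReflTransGen.lift' (fun z => sg M d d' z) hlift _ _ this
    simp only [Function.onFun, sg_sg hL h1] at key
    exact key

include hL h1 h2 in
private theorem sg_intl {U : D → Bool} {A B : D → Prop} (hI : Intl M A B U) :
    Intl M A B (fun x => U (sg M d d' x)) := by
  intro J hJ hA hB
  have h := hI J hJ hA hB
  have hJs : ∀ x, J (sg M d d' x) = J x := fun x => M.vset_veq hJ (sg_veq hL h1 h2 x)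
  rw [Nat.card_congr (Equiv.subtypeEquiv (sg M d d') (p := fun x => U (sg M d d' x) = true ∧
    J x = true ∧ J (M.a x) = false) (q := fun x => U x = true ∧ J x = true ∧ J (M.a x) = false)
    (fun x => by rw [← sg_a hL h1, hJs, hJs]))]
  exact h

include hL hne h1 h2 in
private theorem sg_move [Finite D] {A B : D → Prop} {v w : D} (hv : A v) (hw : B w)
    (hNA : ∀ x y, A x → B y → ¬ M.VEq x y) {U : D → Bool} (hU : M.IsHam U)
    (hI : Intl M A B U) : (fun x => U (sg M d d' x)) ≠ U := by
  intro he
  obtain ⟨v1, v2, v3, v4, v5⟩ := sg_vals hL h1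
  have e0 : U d' = U d := by
    have := congrFun he d
    simpa only [v1] using this
  have ht : U d = true := by
    by_contra h
    rw [Bool.not_eq_true] at h
    exact hne (par_false M hU h (by rw [e0]; exact h) h1)
  have ht' : U d' = true := by rw [e0]; exact ht
  have hta : U (M.a d) = true := by rw [hU.acl]; exact ht
  have hta' : U (M.a d') = true := by rw [hU.acl]; exact ht'
  have hne' : M.a d ≠ M.a d' := fun e => hne (M.ha_inj e)
  have hcl : ∀ y, Conn M.s M.a U d y → y = d ∨ y = d' ∨ y = M.a d ∨ y = M.a d' := by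
    intro y hy
    induction hy with
    | refl => exact Or.inl rfl
    | @tail b c _ h ih =>
      obtain ⟨hb, hc, h⟩ := h
      have hbc : c = M.a b ∨ M.VEq b c := by
        rcases h with h | h | h
        · exact Or.inl h
        · exact Or.inr (Or.inr (Or.inl h))
        · exact Or.inr (Or.inr (Or.inr h))
      rcases hbc with h | h
      · rcases ih with e | e | e | e
        · right; right; left; rw [h, e]
        · right; right; right; rw [h, e]
        · left; rw [h, e, M.a2]
        · right; left; rw [h, e, M.a2]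
      · have hV : M.VEq d b ∨ M.VEq (M.a d) b := by
          rcases ih with e | e | e | e
          · left; rw [e]; exact M.veq_refl d
          · left; rw [e]; exact h1
          · right; rw [e]; exact M.veq_refl _
          · right; rw [e]; exact h2
        rcases hV with hV | hV
        · rcases par_two M hU hne ht ht' h1 (M.veq_trans hV h) hc with e | e
          · exact Or.inl e
          · exact Or.inr (Or.inl e)
        · rcases par_two M hU hne' hta hta' h2 (M.veq_trans hV h) hc with e | e
          · exact Or.inr (Or.inr (Or.inl e))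
          · exact Or.inr (Or.inr (Or.inr e))
  have hall : ∀ x, M.VEq d x ∨ M.VEq (M.a d) x := by
    intro x
    obtain ⟨y, hy, hyt⟩ := par_ex M hU x
    rcases hcl y (hU.conn d y ht hyt) with e | e | e | e
    · left; exact M.veq_symm (e ▸ hy)
    · left; exact M.veq_trans h1 (M.veq_symm (e ▸ hy))
    · right; exact M.veq_symm (e ▸ hy)
    · right; exact M.veq_trans h2 (M.veq_symm (e ▸ hy))
  classical
  have hvw : ¬ M.VEq v w := hNA v w hv hw
  have htwo : ∀ y, ¬ M.VEq v y → M.VEq w y := by
    intro y hy
    rcases hall v with a | a <;> rcases hall w with b | b <;> rcases hall y with c | c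
    · exact absurd (M.veq_trans (M.veq_symm a) c) hy
    · exact absurd (M.veq_trans (M.veq_symm a) b) hvw
    · exact absurd (M.veq_trans (M.veq_symm a) c) hy
    · exact M.veq_trans (M.veq_symm b) c
    · exact M.veq_trans (M.veq_symm b) c
    · exact absurd (M.veq_trans (M.veq_symm a) c) hy
    · exact absurd (M.veq_trans (M.veq_symm a) b) hvw
    · exact absurd (M.veq_trans (M.veq_symm a) c) hy
  have hJ := hI (fun x => decide (M.VEq w x)) (by
      intro x
      simp only [decide_eq_decide]
      constructor
      · intro h; exact M.veq_trans h (M.veq_symm (M.veq_s x))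
      · intro h; exact M.veq_trans h (M.veq_s x)) (by
      intro x hx
      rw [decide_eq_false_iff_not]
      intro h
      exact hNA x w hx hw (M.veq_symm h)) (by
      intro y hy
      rw [decide_eq_true_iff]
      exact htwo y (fun h => hNA v y hv hy h))
  have hle : Nat.card {x : D // U x = true ∧ decide (M.VEq w x) = true ∧
      decide (M.VEq w (M.a x)) = false} ≤ 3 := by
    change Nat.card ({x : D | U x = true ∧ decide (M.VEq w x) = true ∧
      decide (M.VEq w (M.a x)) = false} : Set D) ≤ 3
    rw [Nat.card_coe_set_eq]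
    have n3 : ({w, M.s w, M.s (M.s w)} : Set D).ncard ≤ 3 := by
      have e1 := Set.ncard_insert_le w {M.s w, M.s (M.s w)}
      have e2 := Set.ncard_insert_le (M.s w) {M.s (M.s w)}
      rw [Set.ncard_singleton] at e2
      omega
    refine (Set.ncard_le_ncard (t := {w, M.s w, M.s (M.s w)}) ?_ (Set.toFinite _)).trans n3
    rintro x ⟨_, hx, _⟩
    rw [decide_eq_true_iff] at hx
    rcases hx with e | e | e
    · left; exact e
    · right; left; exact e
    · right; right; exact e
  omega

end

open Pool.Agent.Helper92.CA in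
/-- the general version, for arbitrary sets of darts -/
theorem even_par {D : Type} (M : CMap D) [Finite D] (A B : D → Prop) (hA : ∃ x, A x)
    (hB : ∃ y, B y) (hAB : ∀ x y, A x → B y → ¬ M.VEq x y) (hs : ¬ M.Simple) :
    Even (NAB M A B) := by
  classical
  obtain ⟨v, hv⟩ := hA
  obtain ⟨w, hw⟩ := hB
  have : Finite (D → Bool) := inferInstance
  by_cases hL : ∀ d, ¬ M.VEq d (M.a d)
  · have : ∃ d d', M.VEq d d' ∧ M.VEq (M.a d) (M.a d') ∧ d ≠ d' := by
      by_contra hc
      push Not at hc
      exact hs ⟨hL, hc⟩
    obtain ⟨d, d', h1, h2, hne⟩ := this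
    have : Fintype {U : D → Bool // M.IsHam U ∧ Intl M A B U} :=
      Fintype.ofFinite _
    rw [NAB, Nat.card_eq_fintype_card, ← Finset.card_univ, Nat.even_iff]
    refine ct_even_of_invol Finset.univ
      (fun U => ⟨fun x => U.1 (sg M d d' x), sg_ham hL h1 h2 U.2.1, sg_intl hL h1 h2 U.2.2⟩)
      (fun _ _ => Finset.mem_univ _) ?_ ?_
    · intro U _
      refine Subtype.ext (funext fun x => ?_)
      simp only [sg_sg hL h1]
    · intro U _ h
      exact sg_move hL hne h1 h2 hv hw hAB U.2.1 U.2.2 (congrArg Subtype.val h)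
  · push Not at hL
    obtain ⟨d, hd⟩ := hL
    have : NAB M A B = 0 := by
      rw [NAB, Nat.card_eq_zero]
      left
      exact ⟨fun U => par_loop M U.2.1 d hd⟩
    rw [this]
    exact Even.zero

theorem even_of_not_simple [Finite D] (v w : D) (hNA : NA M v w) (hs : ¬ M.Simple) :
    Even (NI M v w) :=
  even_par M (M.Face v) (M.Face w) ⟨v, 0, rfl⟩ ⟨w, 0, rfl⟩ (fun x y hx hy => hNA x y hx hy) hs

end Pool.Agent.Helper66.CA
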