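import Pool.Agent.Helper66.CA.Absorb
import Pool.Agent.Helper66.CA.GadS
import Pool.Agent.Helper66.CA.FaceOps
import Pool.Agent.Helper66.CA.NoDual
import Pool.Agent.Helper66.CA.Par
import Pool.Agent.Helper92.CA.FourTerm
import Pool.Agent.Helper17.CT.Wheel

set_option autoImplicit false

/-!
Module AE-15: the face across `t` is a triangle.
-/

namespace Pool.Agent.Helper66.CA
open Pool.Agent.Helper17.CT Pool.Agent.Helper92.CA Function

variable {D : Type} (M : CMap D)

lemma card_le_two {α : Type} (P : α → Prop) (p q : α) (h : ∀ d, P d → d = p ∨ d = q) :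
    Nat.card {d : α // P d} ≤ 2 := by
  classical
  let g : {d : α // P d} → Fin 2 := fun d => if d.1 = p then 0 else 1
  have hg : Injective g := by
    intro x y hxy
    apply Subtype.ext
    simp only [g] at hxy
    by_cases h1 : x.1 = p <;> by_cases h2 : y.1 = p
    · rw [h1, h2]
    · rw [if_pos h1, if_neg h2] at hxy; exact absurd hxy (by decide)
    · rw [if_neg h1, if_pos h2] at hxy; exact absurd hxy (by decide)
    · rw [(h x.1 x.2).resolve_left h1, (h y.1 y.2).resolve_left h2]
  have := Nat.card_le_card_of_injective g hg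
  simpa using this

/-- The local picture at the triangle across `t`; `e = s t`. -/
structure Tr (v w t e : D) : Prop where
  ste : M.s t = e
  sse : M.s (M.s e) = t
  fr0 : M.f (M.a t) = e
  fr2 : M.f (M.s (M.a e)) = M.a t
  ar2 : M.a (M.s (M.a e)) = M.s (M.s (M.a t))
  vt : M.Face v t
  v1 : ¬ M.Face v e
  v2 : ¬ M.Face v (M.s e)
  v3 : ¬ M.Face v (M.a e)
  v4 : ¬ M.Face v (M.s (M.a e))
  v5 : ¬ M.Face v (M.s (M.s (M.a e)))
  w0 : ¬ M.Face w t
  w1 : ¬ M.Face w e
  w2 : ¬ M.Face w (M.s e)
  w3 : ¬ M.Face w (M.a e)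
  w4 : ¬ M.Face w (M.s (M.a e))
  w5 : ¬ M.Face w (M.s (M.s (M.a e)))
  ntt : M.f t ≠ t

theorem tr_of [Finite D] (hb : ∀ d, ¬ M.Face d (M.a d)) (hs : M.Simple)
    (v w t e : D) (he : e = M.s t) (hNA : NA M v w) (hg : GoodT M v w t)
    (h3 : minimalPeriod M.f (M.a t) = 3) : Tr M v w t e := by
  have ste : M.s t = e := he.symm
  have sse : M.s (M.s e) = t := by rw [he, M.s3]
  have fr0 : M.f (M.a t) = e := by
    show M.s (M.a (M.a t)) = e
    rw [M.a2, ste]
  have hf3 : M.f (M.f (M.f (M.a t))) = M.a t := by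
    have := isPeriodicPt_minimalPeriod M.f (M.a t)
    rw [h3] at this
    exact this
  have fe : M.f e = M.s (M.a e) := rfl
  have fr2 : M.f (M.s (M.a e)) = M.a t := by
    rw [← fe, ← fr0, hf3]
  have ar2 : M.a (M.s (M.a e)) = M.s (M.s (M.a t)) := by
    rw [← fr2]
    show _ = M.s (M.s (M.s (M.a (M.s (M.a e)))))
    rw [M.s3]
  have vt := hg.onv
  have tri_e : M.Face (M.a t) e := ⟨1, fr0⟩
  have tri_r2 : M.Face (M.a t) (M.s (M.a e)) := face_trans M tri_e ⟨1, fe⟩
  have loop : ∀ x, M.VEq x (M.a x) → False := fun x h => hs.1 x h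
  have ftt : M.f t ≠ t := by
    intro h
    have h' : M.s (M.a t) = t := h
    apply loop (M.a t)
    rw [M.a2]
    exact Or.inr (Or.inl h'.symm)
  have v1 : ¬ M.Face v e := by
    intro h
    have := face_trans M (face_symm M vt) h
    rw [he] at this
    exact (not_face_s M hb t).1 this
  have v2 : ¬ M.Face v (M.s e) := by
    intro h
    have := face_trans M (face_symm M vt) h
    rw [he] at this
    exact (not_face_s M hb t).2 this
  have v3 : ¬ M.Face v (M.a e) := by
    intro h
    have h1 := hg.once (M.a e) h (by rw [M.a2]; exact tri_e)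
    apply loop t
    rw [← h1, M.a2, h1]
    exact Or.inr (Or.inl he)
  have v4 : ¬ M.Face v (M.s (M.a e)) := by
    intro h
    exact hb t (face_trans M (face_symm M (face_trans M vt ⟨0, rfl⟩))
      (face_trans M h (face_symm M tri_r2)))
  have fy2 : M.f (M.a (M.s (M.a e))) = M.s (M.s (M.a e)) := by
    show M.s (M.a (M.a (M.s (M.a e)))) = _
    rw [M.a2]
  have v5 : ¬ M.Face v (M.s (M.s (M.a e))) := by
    intro h
    have h1 : M.Face v (M.a (M.s (M.a e))) := by
      refine face_trans M h (face_symm M ⟨1, fy2⟩)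
    have h2 := hg.once (M.a (M.s (M.a e))) h1 (by rw [M.a2]; exact tri_r2)
    have h3' : M.s (M.a e) = M.a t := by rw [← h2, M.a2]
    have h4 : IsPeriodicPt M.f 2 (M.a t) := by
      show M.f (M.f (M.a t)) = M.a t
      rw [fr0, fe, h3']
    have h5 := h4.minimalPeriod_dvd
    rw [h3] at h5
    exact absurd h5 (by decide)
  have wv : ∀ x, M.VEq t x → ¬ M.Face w x := fun x hx h => hNA t x vt h hx
  have ft : M.Face v (M.f t) := face_trans M vt ⟨1, rfl⟩
  have w0t : ¬ M.Face w (M.a t) := by
    intro h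
    refine hNA (M.f t) (M.a t) ft h ?_
    right; right
    show M.a t = M.s (M.s (M.s (M.a t)))
    rw [M.s3]
  refine ⟨ste, sse, fr0, fr2, ar2, vt, v1, v2, v3, v4, v5, ?_, ?_, ?_, ?_, ?_, ?_, ftt⟩
  · exact wv t (Or.inl rfl)
  · exact wv e (Or.inr (Or.inl he))
  · exact wv _ (Or.inr (Or.inr (by rw [he])))
  · exact hg.nonadj e tri_e
  · intro h
    exact w0t (face_trans M h (face_symm M tri_r2))
  · intro h
    apply hg.nonadj _ tri_r2
    exact face_trans M h (face_symm M ⟨1, fy2⟩)

section
variable {M} {v w t e : D}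

theorem Tr.nsix_a (T : Tr M v w t e) {d : D} (hd : Six M e d) (h : M.Face v d) : d = t := by
  rcases hd with h' | h' | h' | h' | h' | h'
  · rw [h'] at h; exact absurd h T.v1
  · rw [h'] at h; exact absurd h T.v2
  · rw [h', T.sse]
  · rw [h'] at h; exact absurd h T.v3
  · rw [h'] at h; exact absurd h T.v4
  · rw [h'] at h; exact absurd h T.v5

theorem Tr.nsix_b (T : Tr M v w t e) {d : D} (hd : Six M e d) : ¬ M.Face w d := by
  rcases hd with h' | h' | h' | h' | h' | h' <;> rw [h']
  · exact T.w1
  · exact T.w2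
  · rw [T.sse]; exact T.w0
  · exact T.w3
  · exact T.w4
  · exact T.w5

theorem Tr.six_t (T : Tr M v w t e) : Six M e t := Or.inr (Or.inr (Or.inl T.sse.symm))

theorem Tr.r0 (T : Tr M v w t e) (g : Gad M e) : ¬ Six M e (M.a t) := by
  have := g.x2
  rwa [T.sse] at this

theorem Tr.t1 (T : Tr M v w t e) (g : Gad M e) : ¬ Six M e (M.f t) := by
  show ¬ Six M e (M.s (M.a t))
  rw [six_s]
  exact T.r0 g

end

open Classical in
/-- absorption of the triangle -/
theorem tri_absorb [Finite D] (v w t e : D) (hNA : NA M v w) (T : Tr M v w t e)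
    {U : D → Bool} (hU : M.IsHam U) :
    Intl M (M.Face v) (M.Face w) U ↔
      Intl M (fun d => M.Face v d ∧ d ≠ t) (M.Face w) U := by
  let K : D → Bool := fun d => decide (Six M e d ∨ M.VEq (M.a t) d)
  have hKi : ∀ d, K d = true ↔ (Six M e d ∨ M.VEq (M.a t) d) := fun d => by simp [K]
  have hKf : ∀ d, K d = false ↔ ¬ (Six M e d ∨ M.VEq (M.a t) d) := fun d => by simp [K]
  have hvs : ∀ d, M.VEq (M.a t) (M.s d) ↔ M.VEq (M.a t) d := by
    intro d
    constructor
    · rintro (h | h | h)
      · right; right; rw [← h, M.s3]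
      · left
        rw [← M.s3 d, h, M.s3]
      · right; left
        rw [← M.s3 d, h, M.s3]
    · rintro (h | h | h)
      · right; left; rw [h]
      · right; right; rw [h]
      · left; rw [h, M.s3]
  have vft : M.Face v (M.f t) := face_trans M T.vt ⟨1, rfl⟩
  have vb : ∀ d, M.VEq (M.a t) d → M.VEq (M.f t) d := by
    have e1 : M.f t = M.s (M.a t) := rfl
    rintro d (h | h | h)
    · right; right; rw [h, e1, M.s3]
    · left; rw [h, e1]
    · right; left; rw [h, e1]
  refine absorb M hU _ _ _ (fun d h => h.1) K ?_ ?_ ?_ ⟨w, 0, rfl⟩ (M.f t) ⟨vft, T.ntt⟩ ?_ ?_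
  · intro d
    rw [Bool.eq_iff_iff, hKi, hKi, six_s, hvs]
  · intro d hd
    by_cases h : d = t
    · right
      rw [hKi, h]
      exact Or.inl T.six_t
    · exact Or.inl ⟨hd, h⟩
  · intro d hd
    rw [hKf]
    rintro (h | h)
    · exact T.nsix_b h hd
    · exact hNA _ _ vft hd (vb d h)
  · rw [hKi]
    exact Or.inr (Or.inr (Or.inl rfl))
  · -- at most two darts enter `K`
    have ar2 := T.ar2
    have hcase : ∀ d, K d = false → K (M.a d) = true →
        d = M.a (M.s e) ∨ d = M.a (M.s (M.s (M.a e))) ∨ d = M.a (M.f t) := by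
      intro d h1 h2
      rw [hKf] at h1
      rw [hKi] at h2
      have back : ∀ x, M.a d = x → d = M.a x := fun x h => by rw [← h, M.a2]
      rcases h2 with (h | h | h | h | h | h) | (h | h | h)
      · exact absurd (Or.inl (Or.inr (Or.inr (Or.inr (Or.inl (back _ h)))))) h1
      · exact Or.inl (back _ h)
      · rw [T.sse] at h
        exact absurd (Or.inr (Or.inl (back _ h))) h1
      · have := back _ h
        rw [M.a2] at this
        exact absurd (Or.inl (Or.inl this)) h1
      · have := back _ h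
        rw [ar2] at this
        exact absurd (Or.inr (Or.inr (Or.inr this))) h1
      · exact Or.inr (Or.inl (back _ h))
      · have := back _ h
        rw [M.a2] at this
        rw [this] at h1
        exact absurd (Or.inl T.six_t) h1
      · exact Or.inr (Or.inr (back _ h))
      · rw [← ar2] at h
        have := back _ h
        rw [M.a2] at this
        exact absurd (Or.inl (Or.inr (Or.inr (Or.inr (Or.inr (Or.inl this)))))) h1
    have o1 := hU.one t
    rw [T.ste] at o1
    have o2 := hU.one (M.a e)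
    have o3 := hU.one (M.a t)
    rw [← ar2] at o3
    rw [hU.acl] at o2 o3
    rw [hU.acl] at o3
    have e1 : M.s (M.a t) = M.f t := rfl
    rw [e1] at o3
    have hmiss : U (M.s e) = false ∨ U (M.s (M.s (M.a e))) = false ∨ U (M.f t) = false := by
      revert o1 o2 o3
      generalize U t = b1
      generalize U e = b2
      generalize U (M.s e) = b3
      generalize U (M.s (M.a e)) = b4
      generalize U (M.s (M.s (M.a e))) = b5
      generalize U (M.f t) = b6
      unfold Pool.Agent.Helper17.CT.One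
      cases b1 <;> cases b2 <;> cases b3 <;> cases b4 <;> cases b5 <;> cases b6 <;> simp
    rcases hmiss with h | h | h
    · apply card_le_two _ (M.a (M.s (M.s (M.a e)))) (M.a (M.f t))
      rintro d ⟨h1, h2, h3⟩
      rcases hcase d h2 h3 with h4 | h4 | h4
      · rw [h4, hU.acl, h] at h1; exact absurd h1 (by decide)
      · exact Or.inl h4
      · exact Or.inr h4
    · apply card_le_two _ (M.a (M.s e)) (M.a (M.f t))
      rintro d ⟨h1, h2, h3⟩
      rcases hcase d h2 h3 with h4 | h4 | h4
      · exact Or.inl h4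
      · rw [h4, hU.acl, h] at h1; exact absurd h1 (by decide)
      · exact Or.inr h4
    · apply card_le_two _ (M.a (M.s e)) (M.a (M.s (M.s (M.a e))))
      rintro d ⟨h1, h2, h3⟩
      rcases hcase d h2 h3 with h4 | h4 | h4
      · exact Or.inl h4
      · exact Or.inr h4
      · rw [h4, hU.acl, h] at h1; exact absurd h1 (by decide)

/-- the flipped map has two parallel edges -/
theorem tri_flip_even [Finite D] (v w t e : D) (hNA : NA M v w) (T : Tr M v w t e)
    (g : Gad M e) :
    Even (NAB (Helper92.CA.flip M e g) (fun d => M.Face v d ∧ d ≠ t) (M.Face w)) := by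
  have vft : M.Face v (M.f t) := face_trans M T.vt ⟨1, rfl⟩
  have r0 := T.r0 g
  have r0s : ¬ Six M e (M.s (M.a t)) := by rwa [six_s]
  apply even_par _ _ _ ⟨M.f t, vft, T.ntt⟩ ⟨w, 0, rfl⟩
  · rintro x y ⟨hx, hxt⟩ hy h
    have hx6 : ¬ Six M e x := fun h6 => hxt (T.nsix_a h6 hx)
    have hx6s : ¬ Six M e (M.s x) := by rwa [six_s]
    apply hNA x y hx hy
    rcases h with h | h | h
    · exact Or.inl h
    · right; left
      rw [h]; exact fs_out hx6
    · right; right
      rw [h]
      show fs M e (fs M e x) = _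
      rw [fs_out hx6, fs_out hx6s]
  · rintro ⟨-, h⟩
    have h1 : (Helper92.CA.flip M e g).VEq (M.a t) (M.s (M.s (M.a t))) := by
      right; right
      show _ = fs M e (fs M e (M.a t))
      rw [fs_out r0, fs_out r0s]
    have h2 : (Helper92.CA.flip M e g).VEq (M.a (M.a t)) (M.a (M.s (M.s (M.a t)))) := by
      right; left
      show _ = fs M e (M.a (M.a t))
      rw [M.a2, ← T.ar2, M.a2]
      have := fs_x2 g
      rw [T.sse] at this
      exact this.symm
    exact ss_ne M (M.a t) (h _ _ h1 h2).symm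

/-- the flipped map minus the edge has a loop -/
theorem tri_delflip_even [Finite D] (v w t e : D) (hNA : NA M v w) (T : Tr M v w t e)
    (g : Gad M e) :
    Even (NAB (del (Helper92.CA.flip M e g) e g.flip) (fun d => M.Face v d.1 ∧ d.1 ≠ t)
      (fun d => M.Face w d.1)) := by
  have vft : M.Face v (M.f t) := face_trans M T.vt ⟨1, rfl⟩
  have r0 := T.r0 g
  have r0s : ¬ Six M e (M.s (M.a t)) := by rwa [six_s]
  have nsix : ∀ d, ¬ Six M e d → ¬ Six (Helper92.CA.flip M e g) e d :=
    fun d hd h => hd ((six_flip g d).1 h)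
  apply even_par _ _ _ ⟨⟨M.f t, nsix _ (T.t1 g)⟩, vft, T.ntt⟩
  · refine ⟨⟨w, nsix _ (fun h => T.nsix_b h ⟨0, rfl⟩)⟩, 0, rfl⟩
  · rintro ⟨x, x6⟩ ⟨y, y6⟩ ⟨hx, hxt⟩ hy h
    have hx6 : ¬ Six M e x := fun h6 => hxt (T.nsix_a h6 hx)
    have hx6s : ¬ Six M e (M.s x) := by rwa [six_s]
    apply hNA x y hx hy
    rcases h with h | h | h
    · exact Or.inl (congrArg Subtype.val h)
    · right; left
      have h' : y = fs M e x := congrArg Subtype.val h
      rw [h']; exact fs_out hx6
    · right; right
      have h' : y = fs M e (fs M e x) := congrArg Subtype.val h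
      rw [h', fs_out hx6, fs_out hx6s]
  · rintro ⟨h, -⟩
    apply h ⟨M.a t, nsix _ r0⟩
    right; right
    apply Subtype.ext
    show fa (Helper92.CA.flip M e g) e (M.a t) = fs M e (fs M e (M.a t))
    rw [fs_out r0, fs_out r0s]
    have h1 := fa_x1 (Helper92.CA.flip M e g) e
    have h2 : (Helper92.CA.flip M e g).s e = t := by
      show fs M e e = t
      rw [fs_e, T.sse]
    have h3 : (Helper92.CA.flip M e g).s t = M.s (M.a e) := by
      have := fs_x2 g
      rw [T.sse] at this
      exact this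
    rw [h2, h3] at h1
    have h4 : fa (Helper92.CA.flip M e g) e (M.a t) = M.a (M.s (M.a e)) := h1
    rw [h4, T.ar2]

/-- the face of `v` in the smaller map -/
theorem tri_del_f [Finite D] (v w t e : D) (T : Tr M v w t e)
    (g : Gad M e) (x : {d : D // ¬ Six M e d}) (hx : M.Face v x.1) :
    (M.f x.1 ≠ t → ((del M e g).f x).1 = M.f x.1) ∧
      (M.f x.1 = t → ((del M e g).f x).1 = M.f t) := by
  have hfx : M.Face v (M.f x.1) := face_trans M hx ⟨1, rfl⟩
  constructor
  · intro h
    show M.s (fa M e x.1) = M.s (M.a x.1)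
    rw [fa_out]
    · intro h1
      apply h
      rw [h1]
      show M.s (M.a (M.a (M.s e))) = t
      rw [M.a2, T.sse]
    · intro h1
      rw [T.sse] at h1
      rw [h1, T.fr0] at hfx
      exact T.v1 hfx
    · intro h1
      rw [h1] at hfx
      have e1 : M.f (M.a (M.s (M.a e))) = M.s (M.s (M.a e)) := by
        show M.s (M.a (M.a (M.s (M.a e)))) = _
        rw [M.a2]
      rw [e1] at hfx
      exact T.v5 hfx
    · intro h1
      rw [h1] at hfx
      have e1 : M.f (M.a (M.s (M.s (M.a e)))) = M.a e := by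
        show M.s (M.a (M.a (M.s (M.s (M.a e))))) = _
        rw [M.a2, M.s3]
      rw [e1] at hfx
      exact T.v3 hfx
  · intro h
    have h1 : M.a x.1 = M.s e := by
      have h2 : M.s (M.a x.1) = t := h
      rw [← T.sse] at h2
      exact s_inj M h2
    have h2 : x.1 = M.a (M.s e) := by rw [← h1, M.a2]
    show M.s (fa M e x.1) = M.s (M.a t)
    rw [h2, fa_x1, T.sse]

theorem tri_step' [Finite D] (hb : ∀ d, ¬ M.Face d (M.a d)) (hs : M.Simple)
    (v w t e : D) (he : e = M.s t) (hNA : NA M v w) (hg : GoodT M v w t)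
    (h3 : minimalPeriod M.f (M.a t) = 3) (hk : 3 ≤ minimalPeriod M.f v) :
    ∃ (g : Gad M e) (v' w' : {d : D // ¬ Six M e d}),
      minimalPeriod (del M e g).f v' < minimalPeriod M.f v ∧
      NA (del M e g) v' w' ∧
      (Even (NI (del M e g) v' w') → Even (NI M v w)) := by
  have T := tr_of M hb hs v w t e he hNA hg h3
  have g := gad_of_simple M hs e
  have vft : M.Face v (M.f t) := face_trans M T.vt ⟨1, rfl⟩
  have w6 : ∀ d, Six M e d → ¬ M.Face w d := fun d hd => T.nsix_b hd
  have hw0 : ¬ Six M e w := fun h => w6 w h ⟨0, rfl⟩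
  set N := del M e g with hN
  set v' : {d : D // ¬ Six M e d} := ⟨M.f t, T.t1 g⟩ with hv'
  -- the face of `v'`
  have fwd : ∀ x, N.Face v' x → M.Face v x.1 ∧ x.1 ≠ t := by
    rintro x ⟨n, rfl⟩
    induction n with
    | zero => exact ⟨vft, T.ntt⟩
    | succ n ih =>
      rw [iterate_succ_apply']
      obtain ⟨i1, i2⟩ := ih
      obtain ⟨j1, j2⟩ := tri_del_f M v w t e T g _ i1
      by_cases h : M.f ((N.f)^[n] v').1 = t
      · have h' := j2 h
        rw [← hN] at h'
        rw [h']
        exact ⟨vft, T.ntt⟩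
      · have h' := j1 h
        rw [← hN] at h'
        rw [h']
        exact ⟨face_trans M i1 ⟨1, rfl⟩, h⟩
  have run : ∀ n : ℕ, (∀ m, m ≤ n → (M.f)^[m] (M.f t) ≠ t) →
      ((N.f)^[n] v').1 = (M.f)^[n] (M.f t) := by
    intro n
    induction n with
    | zero => intro _; rfl
    | succ n ih =>
      intro h
      have ih' := ih (fun m hm => h m (by omega))
      rw [iterate_succ_apply', iterate_succ_apply']
      have i1 := fwd _ ⟨n, rfl⟩
      obtain ⟨j1, -⟩ := tri_del_f M v w t e T g ((N.f)^[n] v') i1.1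
      rw [← hN] at j1
      rw [j1]
      · rw [ih']
      · rw [ih', ← iterate_succ_apply' (f := M.f)]
        exact h (n + 1) le_rfl
  have bwd : ∀ x : {d : D // ¬ Six M e d}, M.Face v x.1 → x.1 ≠ t → N.Face v' x := by
    classical
    intro x hx hxt
    have hex : ∃ n, (M.f)^[n] (M.f t) = x.1 := face_trans M (face_symm M vft) hx
    refine ⟨Nat.find hex, Subtype.ext ?_⟩
    rw [run]
    · exact Nat.find_spec hex
    · intro m hm hmt
      rcases Nat.lt_or_ge m (Nat.find hex) with h | h
      · apply Nat.find_min hex (m := Nat.find hex - (m + 1)) (by omega)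
        have h1 := Nat.find_spec hex
        have h2 : Nat.find hex = (Nat.find hex - (m + 1)) + (m + 1) := by omega
        rw [h2, iterate_add_apply, iterate_succ_apply', hmt] at h1
        exact h1
      · have h1 : m = Nat.find hex := by omega
        apply hxt
        rw [← Nat.find_spec hex, ← h1, hmt]
  have face_v : ∀ x, N.Face v' x ↔ (M.Face v x.1 ∧ x.1 ≠ t) :=
    fun x => ⟨fwd x, fun h => bwd x h.1 h.2⟩
  have face_w : ∀ x, N.Face ⟨w, hw0⟩ x ↔ M.Face w x.1 := fun x => face_del M g w w6 hw0 x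
  refine ⟨g, v', ⟨w, hw0⟩, ?_, ?_, ?_⟩
  · -- the period
    obtain ⟨i, hi⟩ := T.vt
    have hpt : minimalPeriod M.f t = minimalPeriod M.f v := by
      rw [← hi]; exact period_shift M v i
    set k := minimalPeriod M.f v with hkd
    have hper : (M.f)^[k] t = t := by
      have := isPeriodicPt_minimalPeriod M.f t
      rw [hpt] at this
      exact this
    have hne : ∀ m, m ≤ k - 2 → (M.f)^[m] (M.f t) ≠ t := by
      intro m hm h
      rw [← iterate_succ_apply] at h
      have h1 : IsPeriodicPt M.f (m + 1) t := h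
      have h2 := h1.minimalPeriod_le (by omega)
      rw [hpt] at h2
      omega
    have h1 := run (k - 2) hne
    have hP : IsPeriodicPt N.f (k - 1) v' := by
      show (N.f)^[k - 1] v' = v'
      have e1 : k - 1 = (k - 2) + 1 := by omega
      rw [e1, iterate_succ_apply']
      obtain ⟨-, j2⟩ := tri_del_f M v w t e T g ((N.f)^[k - 2] v') (fwd _ ⟨_, rfl⟩).1
      rw [← hN] at j2
      apply Subtype.ext
      rw [j2]
      rw [h1, ← iterate_succ_apply' (f := M.f), ← iterate_succ_apply (f := M.f)]
      have e2 : (k - 2 + 1).succ = k := by omega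
      rw [e2]
      exact hper
    have h9 := hP.minimalPeriod_le (by omega)
    show minimalPeriod N.f v' < k
    omega
  · intro x y hx hy h
    rw [face_v] at hx
    rw [face_w] at hy
    apply hNA x.1 y.1 hx.1 hy
    rcases h with h | h | h
    · exact Or.inl (congrArg Subtype.val h)
    · exact Or.inr (Or.inl (congrArg Subtype.val h))
    · exact Or.inr (Or.inr (congrArg Subtype.val h))
  · intro hev
    have h4 := four_term M e g (fun d => M.Face v d ∧ d ≠ t) (M.Face w)
      (fun d hd h => h.2 (T.nsix_a hd h.1)) w6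
    have h5 := tri_flip_even M v w t e hNA T g
    have h6 := tri_delflip_even M v w t e hNA T g
    have e1 : NI M v w = NAB M (fun d => M.Face v d ∧ d ≠ t) (M.Face w) := by
      unfold NI NAB
      apply Nat.card_congr
      apply Equiv.subtypeEquivRight
      intro U
      constructor
      · rintro ⟨hU, hI⟩
        exact ⟨hU, (tri_absorb M v w t e hNA T hU).1 hI⟩
      · rintro ⟨hU, hI⟩
        exact ⟨hU, (tri_absorb M v w t e hNA T hU).2 hI⟩
    have e2 : NI N v' ⟨w, hw0⟩ =
        NAB N (fun d => M.Face v d.1 ∧ d.1 ≠ t) (fun d => M.Face w d.1) := by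
      unfold NI NAB
      have a1 : N.Face v' = fun d => M.Face v d.1 ∧ d.1 ≠ t := funext fun x => propext (face_v x)
      have a2 : N.Face ⟨w, hw0⟩ = fun d => M.Face w d.1 := funext fun x => propext (face_w x)
      rw [a1, a2]
    rw [e1]
    rw [e2] at hev
    have h7 : Even (NAB M (fun d => M.Face v d ∧ d ≠ t) (M.Face w) +
        NAB N (fun d => M.Face v d.1 ∧ d.1 ≠ t) (fun d => M.Face w d.1)) := by
      have h8 := (Nat.even_add.1 h4).2 h6
      rw [add_right_comm] at h8
      exact (Nat.even_add.1 h8).2 h5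
    exact (Nat.even_add.1 h7).2 hev

theorem tri_step [Finite D] (_hp : M.Planar) (hb : ∀ d, ¬ M.Face d (M.a d)) (hs : M.Simple)
    (v w t : D) (hNA : NA M v w) (hg : GoodT M v w t) (h3 : minimalPeriod M.f (M.a t) = 3)
    (hk : 3 ≤ minimalPeriod M.f v) :
    ∃ (g : Gad M (M.f (M.a t))) (v' w' : {d : D // ¬ Six M (M.f (M.a t)) d}),
      minimalPeriod (del M (M.f (M.a t)) g).f v' < minimalPeriod M.f v ∧
      NA (del M (M.f (M.a t)) g) v' w' ∧
      (Even (NI (del M (M.f (M.a t)) g) v' w') → Even (NI M v w)) :=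
  tri_step' M hb hs v w t (M.f (M.a t)) (by
    show M.s (M.a (M.a t)) = M.s t
    rw [M.a2]) hNA hg h3 hk

end Pool.Agent.Helper66.CA
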