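import Pool.Agent.Helper66.CA.Term
import Pool.Agent.Helper66.CA.Rep
import Pool.Agent.Helper66.CA.FlipGeo
import Pool.Agent.Helper66.CA.TriStep
import Pool.Agent.Helper92.CA.PlanarOps

set_option autoImplicit false

/-!
Module AE-16: the induction.

`ae_aux`: induction on `n ≥ Nat.card D`. Inner statement (induction on `l`): if `t` is good
(GoodT M v w t) and `minimalPeriod M.f (a t) ≤ l` then the number is even.
-/

namespace Pool.Agent.Helper66.CA
open Pool.Agent.Helper17.CT Pool.Agent.Helper92.CA Function

section
variable {D : Type} (M : CMap D)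

lemma ni_zero_of_no_ham (v w : D) (h : ¬ ∃ U, M.IsHam U) : NI M v w = 0 := by
  have : IsEmpty {U : D → Bool // M.IsHam U ∧ Intl M (M.Face v) (M.Face w) U} :=
    ⟨fun U => h ⟨U.1, U.2.1⟩⟩
  exact Nat.card_of_isEmpty

lemma three_le_period [Finite D] (hs : M.Simple) (t : D) : 3 ≤ minimalPeriod M.f (M.a t) := by
  have h0 : 0 < minimalPeriod M.f (M.a t) := M.period_pos _
  have hper : (M.f)^[minimalPeriod M.f (M.a t)] (M.a t) = M.a t := isPeriodicPt_minimalPeriod _ _
  by_contra hcon
  have h12 : minimalPeriod M.f (M.a t) = 1 ∨ minimalPeriod M.f (M.a t) = 2 := by omega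
  rcases h12 with h | h
  · rw [h] at hper
    have h1 : M.s t = M.a t := by simpa [CMap.f, M.a2] using hper
    exact hs.1 t (Or.inr (Or.inl h1.symm))
  · rw [h] at hper
    have h1 : M.s (M.a (M.s t)) = M.a t := by simpa [CMap.f, M.a2] using hper
    have h2 := hs.2 t (M.s t) (Or.inr (Or.inl rfl))
      (Or.inr (Or.inr (by rw [← h1, M.s3])))
    exact M.s1 t h2.symm

variable {M}

lemma nab_face {v w : D} : NAB M (M.Face v) (M.Face w) = NI M v w := rfl

lemma nab_flip {e : D} (g : Gad M e) (v w : D) (hv : ∀ d, Six M e d → ¬ M.Face v d)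
    (hw : ∀ d, Six M e d → ¬ M.Face w d) :
    NAB (Helper92.CA.flip M e g) (M.Face v) (M.Face w) = NI (Helper92.CA.flip M e g) v w := by
  have h1 : (Helper92.CA.flip M e g).Face v = M.Face v :=
    funext fun x => propext (face_flip M g v hv x)
  have h2 : (Helper92.CA.flip M e g).Face w = M.Face w :=
    funext fun x => propext (face_flip M g w hw x)
  unfold NAB NI
  rw [h1, h2]

lemma nab_del {e : D} (g : Gad M e) (v w : D) (hv : ∀ d, Six M e d → ¬ M.Face v d)
    (hw : ∀ d, Six M e d → ¬ M.Face w d) (h0 : ¬ Six M e v) (h1 : ¬ Six M e w) :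
    NAB (del M e g) (fun d => M.Face v d.1) (fun d => M.Face w d.1) =
      NI (del M e g) ⟨v, h0⟩ ⟨w, h1⟩ := by
  have e1 : (del M e g).Face ⟨v, h0⟩ = fun d => M.Face v d.1 :=
    funext fun x => propext (face_del M g v hv h0 x)
  have e2 : (del M e g).Face ⟨w, h1⟩ = fun d => M.Face w d.1 :=
    funext fun x => propext (face_del M g w hw h1 x)
  unfold NAB NI
  rw [e1, e2]

lemma na_flip {e : D} (g : Gad M e) (v w : D) (hv : ∀ d, Six M e d → ¬ M.Face v d)
    (hw : ∀ d, Six M e d → ¬ M.Face w d) (hNA : NA M v w) :
    NA (Helper92.CA.flip M e g) v w := by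
  intro x y hx hy hxy
  rw [face_flip M g v hv] at hx
  rw [face_flip M g w hw] at hy
  have hxs : ¬ Six M e x := fun h => hv x h hx
  have hxs1 : ¬ Six M e (M.s x) := by rwa [six_s]
  apply hNA x y hx hy
  have e1 : (Helper92.CA.flip M e g).s x = M.s x := fs_out hxs
  have e2 : (Helper92.CA.flip M e g).s (M.s x) = M.s (M.s x) := fs_out hxs1
  rcases hxy with h | h | h
  · exact Or.inl h
  · rw [e1] at h; exact Or.inr (Or.inl h)
  · rw [e1, e2] at h; exact Or.inr (Or.inr h)

lemma na_del {e : D} (g : Gad M e) (v w : D) (hv : ∀ d, Six M e d → ¬ M.Face v d)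
    (hw : ∀ d, Six M e d → ¬ M.Face w d) (h0 : ¬ Six M e v) (h1 : ¬ Six M e w)
    (hNA : NA M v w) : NA (del M e g) ⟨v, h0⟩ ⟨w, h1⟩ := by
  intro x y hx hy hxy
  rw [face_del M g v hv] at hx
  rw [face_del M g w hw] at hy
  apply hNA x.1 y.1 hx hy
  rcases hxy with h | h | h
  · exact Or.inl (congrArg Subtype.val h)
  · exact Or.inr (Or.inl (congrArg Subtype.val h))
  · exact Or.inr (Or.inr (congrArg Subtype.val h))

lemma card_del_lt [Finite D] (e : D) : Nat.card {d : D // ¬ Six M e d} < Nat.card D := by
  classical
  have : Fintype D := Fintype.ofFinite D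
  rw [Nat.card_eq_fintype_card, Nat.card_eq_fintype_card]
  exact Fintype.card_subtype_lt (x := e) (fun h => h (Or.inl rfl))

end

/-- The induction. -/
theorem ae_aux : ∀ (n : ℕ) (D : Type) [Finite D] (M : CMap D), Nat.card D ≤ n → M.Planar →
    ∀ v w : D, minimalPeriod M.f v ≤ 5 → NA M v w → Even (NI M v w) := by
  intro n
  induction n with
  | zero =>
    intro D _ M hn _ v w _ _
    have : 0 < Nat.card D := Nat.card_pos_iff.2 ⟨⟨v⟩, inferInstance⟩
    omega
  | succ n ih =>
    intro D _ M hn hp v w h5 hNA
    -- the inner induction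
    have inner : ∀ (l : ℕ) (M : CMap D), M.Planar → ∀ v w t : D, minimalPeriod M.f v ≤ 5 →
        NA M v w → GoodT M v w t → minimalPeriod M.f (M.a t) ≤ l → Even (NI M v w) := by
      intro l
      induction l with
      | zero =>
        intro M _ v w t _ _ _ h
        have := M.period_pos (M.a t)
        omega
      | succ l ihl =>
        intro M hp v w t h5 hNA hg hl
        by_cases hs : M.Simple
        swap
        · exact even_of_not_simple M v w hNA hs
        by_cases hU : ∃ U, M.IsHam U
        swap
        · rw [ni_zero_of_no_ham M v w hU]; exact Even.zero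
        obtain ⟨U, hU⟩ := hU
        have hb : ∀ d, ¬ M.Face d (M.a d) := no_self M hp hU
        by_cases hk : minimalPeriod M.f v ≤ 3
        · rw [small_zero M v w hNA hk]; exact Even.zero
        have hm := three_le_period M hs t
        by_cases h3 : minimalPeriod M.f (M.a t) = 3
        · obtain ⟨g, v', w', q1, q2, q3⟩ := tri_step M hp hb hs v w t hNA hg h3 (by omega)
          apply q3
          have hc := card_del_lt (M := M) (M.f (M.a t))
          exact ih _ (del M (M.f (M.a t)) g) (by omega) (planar_del g hp) v' w' (by omega) q2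
        · have h4 : 4 ≤ minimalPeriod M.f (M.a t) := by omega
          have hfar := far M hb v w t hNA hg h4
          set e := M.f (M.f (M.a t)) with he
          have g : Gad M e := gad_of_simple M hs e
          have hv : ∀ d, Six M e d → ¬ M.Face v d := fun d hd => (hfar d hd).1
          have hw : ∀ d, Six M e d → ¬ M.Face w d := fun d hd => (hfar d hd).2
          have hv0 : ¬ Six M e v := fun h => hv v h ⟨0, rfl⟩
          have hw0 : ¬ Six M e w := fun h => hw w h ⟨0, rfl⟩
          obtain ⟨hg2, hl2⟩ := flip_good M hb v w t hNA hg h4 g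
          have hl3 : minimalPeriod (Helper92.CA.flip M e g).f (M.a t) ≤ l := by
            have q : minimalPeriod (Helper92.CA.flip M e g).f (M.a t) <
                minimalPeriod M.f (M.a t) := hl2
            omega
          have hft := four_term M e g (M.Face v) (M.Face w) hv hw
          -- the flipped map
          have p2 : (Helper92.CA.flip M e g).Planar := planar_flip g hp
          have na2 := na_flip g v w hv hw hNA
          have e2 : Even (NAB (Helper92.CA.flip M e g) (M.Face v) (M.Face w)) := by
            rw [nab_flip g v w hv hw]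
            exact ihl _ p2 v w t (by rw [period_flip M g v hv]; exact h5) na2 hg2
              hl3
          -- the deleted map
          have hc := card_del_lt (M := M) e
          have e3 : Even (NAB (del M e g) (fun d => M.Face v d.1) (fun d => M.Face w d.1)) := by
            rw [nab_del g v w hv hw hv0 hw0]
            exact ih _ (del M e g) (by omega) (planar_del g hp) _ _
              (by rw [period_del M g v hv hv0]; exact h5) (na_del g v w hv hw hv0 hw0 hNA)
          -- the deleted flipped map
          have hv2 : ∀ d, Six (Helper92.CA.flip M e g) e d →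
              ¬ (Helper92.CA.flip M e g).Face v d := by
            intro d hd
            rw [six_flip] at hd
            rw [face_flip M g v hv]
            exact hv d hd
          have hw2 : ∀ d, Six (Helper92.CA.flip M e g) e d →
              ¬ (Helper92.CA.flip M e g).Face w d := by
            intro d hd
            rw [six_flip] at hd
            rw [face_flip M g w hw]
            exact hw d hd
          have hv20 : ¬ Six (Helper92.CA.flip M e g) e v := by rw [six_flip]; exact hv0
          have hw20 : ¬ Six (Helper92.CA.flip M e g) e w := by rw [six_flip]; exact hw0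
          have hc2 := card_del_lt (M := Helper92.CA.flip M e g) e
          have e4 : Even (NAB (del (Helper92.CA.flip M e g) e g.flip) (fun d => M.Face v d.1)
              (fun d => M.Face w d.1)) := by
            have k1 : (fun d : {d : D // ¬ Six (Helper92.CA.flip M e g) e d} => M.Face v d.1) =
                fun d => (Helper92.CA.flip M e g).Face v d.1 :=
              funext fun d => propext (face_flip M g v hv d.1).symm
            have k2 : (fun d : {d : D // ¬ Six (Helper92.CA.flip M e g) e d} => M.Face w d.1) =
                fun d => (Helper92.CA.flip M e g).Face w d.1 :=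
              funext fun d => propext (face_flip M g w hw d.1).symm
            rw [k1, k2, nab_del g.flip v w hv2 hw2 hv20 hw20]
            exact ih _ (del (Helper92.CA.flip M e g) e g.flip) (by omega)
              (planar_del g.flip p2) _ _
              (by rw [period_del _ g.flip v hv2 hv20, period_flip M g v hv]; exact h5)
              (na_del g.flip v w hv2 hw2 hv20 hw20 na2)
          rw [← nab_face]
          rw [Nat.even_add, Nat.even_add, Nat.even_add] at hft
          simp only [e2, e3, e4, iff_true] at hft
          exact hft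
    by_cases hU : ∃ U, M.IsHam U
    swap
    · rw [ni_zero_of_no_ham M v w hU]; exact Even.zero
    obtain ⟨U, hU⟩ := hU
    by_cases hk : minimalPeriod M.f v ≤ 3
    · rw [small_zero M v w hNA hk]; exact Even.zero
    by_cases hna : ∃ t, M.Face v t ∧ ∀ d, M.Face (M.a t) d → ¬ M.Face w (M.a d)
    · obtain ⟨t, ht⟩ := exists_good M hp hU v w hNA h5 hna
      exact inner _ M hp v w t h5 hNA ht le_rfl
    · push Not at hna
      exact terminal M hp v w hNA (by omega) h5 hna

theorem ae {D : Type} [Finite D] (M : CMap D) (hp : M.Planar) (v0 w0 : D)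
    (h5 : minimalPeriod M.f v0 ≤ 5)
    (hNA : ∀ x y, M.Face v0 x → M.Face w0 y → ¬ M.VEq x y) :
    Even (Nat.card {U : D → Bool // M.IsHam U ∧ Intl M (M.Face v0) (M.Face w0) U}) :=
  ae_aux (Nat.card D) D M le_rfl hp v0 w0 h5 hNA

end Pool.Agent.Helper66.CA
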