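import Pool.Agent.Helper66.CA.HamCut
import Pool.Agent.Helper92.CA.Defs

set_option autoImplicit false

/-!
Module AE-14: absorption.

`cut_submod`: for VSets `X`, `Y`: `cut (X and Y) + cut (X or Y) ≤ cut X + cut Y`, where
`cut X := Nat.card {d // U d ∧ X d ∧ ¬ X (a d)}`. Pointwise: for every dart `d`,
`[d leaves X and Y] + [d leaves X or Y] ≤ [d leaves X] + [d leaves Y] `is false for single darts, but
with both orientations: sum over `d` of the indicators; for a dart `d` with values
`(X d, Y d), (X (a d), Y (a d))`: leaving `X and Y` means `X d`, `Y d`, and `X (a d)` or `Y (a d)`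
false; leaving `X or Y` means `X d` or `Y d`, and both false at `a d`. The inequality of indicators
`i(X∧Y) + i(X∨Y) ≤ i(X) + i(Y)` DOES hold for each single dart: if `X d`, `Y d` both true: number of
false values at `a d` on the right, and min(1,..)+[both] on the left: equal. If only one is true, say
`X d`: left: `i(X∨Y) = [both false at a d] ≤ [X (a d) false] = i(X)`. So sum up (Finset sums of
indicators, or `Finset.card` of filters).

`absorb`: let `A' d → A d`. If `Intl M A' B U` then `Intl M A B U` (fewer `J`). Conversely let
`Intl M A B U`, let `J` be a VSet false on `A'`, true on `B`. Let `X := J`, `Y := not K`. The VSet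
`J and not K` is false on `A` (for `d` with `A d`: `A' d` or `K d`) and true on `B`
(`J` true, `K` false). So `4 ≤ cut (J and not K)`. `J or not K` is false at `b` (`J b = false`,
`K b = true`) and true at some dart (`B` is nonempty: at a dart of `B` `J` is true), so by
`ham_two` its cut is `≥ 2`; `cut (not K) ≤ 2`; by `cut_submod`: `4 + 2 ≤ cut J + 2`.
-/

namespace Pool.Agent.Helper66.CA
open Pool.Agent.Helper17.CT Pool.Agent.Helper92.CA Function

variable {D : Type} (M : CMap D)

private lemma card_sum [Fintype D] (P : D → Prop) [DecidablePred P] :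
    Nat.card {d : D // P d} = ∑ d, if P d then 1 else 0 := by
  rw [Nat.card_eq_fintype_card, Fintype.card_subtype, Finset.card_filter]

theorem cut_submod [Finite D] (U X Y : D → Bool) :
    Nat.card {d : D // U d = true ∧ (X d && Y d) = true ∧ (X (M.a d) && Y (M.a d)) = false} +
      Nat.card {d : D // U d = true ∧ (X d || Y d) = true ∧ (X (M.a d) || Y (M.a d)) = false} ≤
    Nat.card {d : D // U d = true ∧ X d = true ∧ X (M.a d) = false} +
      Nat.card {d : D // U d = true ∧ Y d = true ∧ Y (M.a d) = false} := by
  classical
  have : Fintype D := Fintype.ofFinite D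
  rw [card_sum, card_sum, card_sum, card_sum, ← Finset.sum_add_distrib, ← Finset.sum_add_distrib]
  refine Finset.sum_le_sum (fun d _ => ?_)
  cases U d <;> cases X d <;> cases Y d <;> cases X (M.a d) <;> cases Y (M.a d) <;> decide

theorem absorb [Finite D] {U : D → Bool} (hU : M.IsHam U) (A A' B : D → Prop)
    (hAA : ∀ d, A' d → A d) (K : D → Bool) (hK : M.VSet K) (hKA : ∀ d, A d → A' d ∨ K d = true)
    (hKB : ∀ d, B d → K d = false) (hB : ∃ d, B d) (b : D) (hb : A' b) (hbK : K b = true)
    (h2 : Nat.card {d : D // U d = true ∧ K d = false ∧ K (M.a d) = true} ≤ 2) :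
    Intl M A B U ↔ Intl M A' B U := by
  constructor
  · intro h J hJ hJA hJB
    have h3 := h (fun d => J d && !K d) (fun d => by
      change (J (M.s d) && !K (M.s d)) = (J d && !K d)
      rw [hJ, hK]) (fun d hd => by
        rcases hKA d hd with h4 | h4
        · change (J d && !K d) = false
          rw [hJA d h4, Bool.false_and]
        · change (J d && !K d) = false
          rw [h4, Bool.not_true, Bool.and_false]) (fun d hd => by
        change (J d && !K d) = true
        rw [hJB d hd, hKB d hd]
        rfl)
    obtain ⟨d0, hd0⟩ := hB
    have h5 := ham_two M (X := fun d => J d || !K d) hU (fun d => by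
      change (J (M.s d) || !K (M.s d)) = (J d || !K d)
      rw [hJ, hK]) ⟨d0, by
        change (J d0 || !K d0) = true
        rw [hJB d0 hd0, Bool.true_or]⟩ ⟨b, by
        change (J b || !K b) = false
        rw [hJA b hb, hbK]
        rfl⟩
    have h6 := cut_submod M U J (fun d => !K d)
    have h7 : Nat.card {d : D // U d = true ∧ (!K d) = true ∧ (!K (M.a d)) = false} =
        Nat.card {d : D // U d = true ∧ K d = false ∧ K (M.a d) = true} := by
      refine Nat.card_congr (Equiv.subtypeEquivRight ?_)
      intro e
      rw [Bool.not_eq_true', Bool.not_eq_false']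
    rw [h7] at h6
    beta_reduce at h3 h5
    omega
  · intro h J hJ hJA hJB
    exact h J hJ (fun d hd => hJA d (hAA d hd)) hJB

end Pool.Agent.Helper66.CA
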