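import Pool.Agent.Helper66.CA.Intl
import Pool.Agent.Helper63.CT.M10
import Pool.Agent.Helper75.CT.Basic

set_option autoImplicit false

/-! Common definitions for the alternation evenness theorem (project MP_16e137_co). -/

namespace Pool.Agent.Helper66.CA
open Pool.Agent.Helper17.CT Function

variable {D : Type}

/-- xor of a list of booleans -/
def xl (l : List Bool) : Bool := l.foldr (fun x y => x ^^ y) false

@[simp] lemma xl_nil : xl [] = false := rfl
@[simp] lemma xl_cons (b : Bool) (l : List Bool) : xl (b :: l) = (b ^^ xl l) := rfl

open Classical in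
/-- indicator of the edge of the dart `g` -/
noncomputable def ed (M : CMap D) (g d : D) : Bool := decide (d = g ∨ d = M.a g)

lemma ed_iff (M : CMap D) (g d : D) : ed M g d = true ↔ d = g ∨ d = M.a g := by
  simp [ed]

lemma ed_false (M : CMap D) (g d : D) : ed M g d = false ↔ d ≠ g ∧ d ≠ M.a g := by
  rw [← not_iff_not]
  simp only [Bool.not_eq_false, ed_iff]
  tauto

/-- The faces of `v` and `w` have no common vertex. -/
def NA (M : CMap D) (v w : D) : Prop := ∀ x y, M.Face v x → M.Face w y → ¬ M.VEq x y

/-- The dart `t` lies on the face of `v`, the face `u` across `t` has no edge in common with the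
face of `w`, and has no other edge in common with the face of `v`. -/
structure GoodT (M : CMap D) (v w t : D) : Prop where
  onv : M.Face v t
  nonadj : ∀ d, M.Face (M.a t) d → ¬ M.Face w (M.a d)
  once : ∀ t', M.Face v t' → M.Face (M.a t) (M.a t') → t' = t

end Pool.Agent.Helper66.CA
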