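import Pool.Agent.Helper66.CA.Base

set_option autoImplicit false

/-!
Module AE-06: if at most one edge of the face of `v` is not in `U`, then `U` is not interlaced.

`not_intl`: let `J d := true` iff none of `d, s d, s (s d)` is on the face of `v`. `J` is a VSet,
false on the face of `v`, true on the face of `w` (hNA). We show that at most two darts of `U`
leave `J`. Let `U d`, `J d = true`, `J (a d) = false`. One of `a d, s (a d), s (s (a d))` is on
the face of `v`.
 - If it is `a d`: then `f (a d) = s d` is on the face of `v`, so `J d = false`, contradiction.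
 - If it is `s (a d) = f d`: then `d` is on the face of `v` (face_symm), `J d = false`.
 - So it is `t := s (s (a d))`, and `a d = s t`, `d = a (s t)`. `U (s t) = U d = true`, so by `One`
   at `t` exactly one of `U t`, `U (s (s t))` is false. `s (s t) = a t'` with `t' := a (s (s t))`,
   and `f t' = s (s (s t)) = t`, so `t'` is on the face of `v`, `U t' = U (s (s t))`.
   So `t` or `t'` is a dart of the face of `v` outside of `U`; by `h` this is one fixed dart `m`
   (if there is no such dart then no `d` exists). So `t = m` or `t = f m`, i.e. `d = a (s m)` or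
   `d = a (s (f m))`: at most two darts.
Since `Intl` gives at least 4, contradiction.

`small_zero`: for every Hamilton cycle `U` the hypothesis of `not_intl` holds if the face of `v`
has at most 3 darts: if `x ≠ y` are on the face of `v` then `y = f x` or `x = f y` (write
`x = f^[i] v`, `y = f^[j] v` with `i, j < minimalPeriod ≤ 3`); if `y = f x = s (a x)` and
`U x = U y = false` then `U (a x) = false` and `U (s (a x)) = false` contradict `One` at `a x`.
So the subtype in `NI` is empty.
-/

namespace Pool.Agent.Helper66.CA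
open Pool.Agent.Helper17.CT Function

variable {D : Type} (M : CMap D)

private lemma face_f (x : D) : M.Face x (M.f x) := ⟨1, rfl⟩

private lemma face_of_f [Finite D] {v x : D} (h : M.Face v (M.f x)) : M.Face v x :=
  face_trans M h (face_symm M (face_f M x))

open Classical in
theorem not_intl [Finite D] {U : D → Bool} (hU : M.IsHam U) (v w : D) (hNA : NA M v w)
    (h : ∀ x y, M.Face v x → M.Face v y → U x = false → U y = false → x = y) :
    ¬ Intl M (M.Face v) (M.Face w) U := by
  intro hI
  let J : D → Bool := fun d => decide (¬ M.Face v d ∧ ¬ M.Face v (M.s d) ∧ ¬ M.Face v (M.s (M.s d)))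
  have hJt : ∀ d, J d = true ↔ (¬ M.Face v d ∧ ¬ M.Face v (M.s d) ∧ ¬ M.Face v (M.s (M.s d))) := by
    intro d
    simp only [J, decide_eq_true_eq]
  have hJf : ∀ d, J d = false ↔ (M.Face v d ∨ M.Face v (M.s d) ∨ M.Face v (M.s (M.s d))) := by
    intro d
    simp only [J, decide_eq_false_iff_not]
    tauto
  have hV : M.VSet J := by
    intro d
    apply Bool.eq_iff_iff.mpr
    rw [hJt, hJt, M.s3]
    tauto
  have h4 := hI J hV (fun d hd => (hJf d).2 (Or.inl hd)) (by
    intro d hd
    rw [hJt]
    refine ⟨fun hf => hNA _ _ hf hd (Or.inl rfl), fun hf => hNA _ _ hf hd ?_,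
      fun hf => hNA _ _ hf hd ?_⟩
    · exact Or.inr (Or.inr (M.s3 d).symm)
    · exact Or.inr (Or.inl (M.s3 d).symm))
  have key : ∀ d, U d = true → J d = true → J (M.a d) = false →
      ∃ t, M.Face v t ∧ U t = false ∧ (d = M.a (M.s t) ∨ d = M.a (M.s (M.f t))) := by
    intro d hUd hJd hJa
    rw [hJt] at hJd
    rw [hJf] at hJa
    rcases hJa with h1 | h1 | h1
    · exfalso
      apply hJd.2.1
      have := face_trans M h1 (face_f M (M.a d))
      simpa only [CMap.f, M.a2] using this
    · exfalso
      exact hJd.1 (face_of_f M h1)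
    · have hst : M.s (M.s (M.s (M.a d))) = M.a d := M.s3 _
      have hd : M.a (M.s (M.s (M.s (M.a d)))) = d := by rw [hst, M.a2]
      generalize hT : M.s (M.s (M.a d)) = t at h1 hst hd
      have hUst : U (M.s t) = true := by rw [hst, hU.acl, hUd]
      have h2 : U t = false ∨ U (M.s (M.s t)) = false := by
        rcases hU.one t with ⟨a, -, -⟩ | ⟨-, b, -⟩ | ⟨-, -, c⟩
        · exact Or.inl a
        · rw [hUst] at b; exact absurd b (by decide)
        · exact Or.inr c
      rcases h2 with h2 | h2
      · exact ⟨t, h1, h2, Or.inl hd.symm⟩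
      · have hft : M.f (M.a (M.s (M.s t))) = t := by
          simp only [CMap.f, M.a2, M.s3]
        refine ⟨M.a (M.s (M.s t)), ?_, ?_, Or.inr ?_⟩
        · apply face_of_f M
          rw [hft]
          exact h1
        · rw [hU.acl, h2]
        · rw [hft]
          exact hd.symm
  by_cases hm : ∃ m, M.Face v m ∧ U m = false
  · obtain ⟨m, hm1, hm2⟩ := hm
    have hsub : {d : D | U d = true ∧ J d = true ∧ J (M.a d) = false} ⊆
        ({M.a (M.s m), M.a (M.s (M.f m))} : Set D) := by
      rintro d ⟨a, b, c⟩
      obtain ⟨t, ht1, ht2, ht3⟩ := key d a b c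
      have := h t m ht1 hm1 ht2 hm2
      subst this
      exact ht3
    have hle : Nat.card {d : D // U d = true ∧ J d = true ∧ J (M.a d) = false} ≤ 2 := by
      have := Set.ncard_le_ncard hsub (Set.toFinite _)
      exact this.trans (Set.ncard_insert_le _ _ |>.trans (by rw [Set.ncard_singleton]))
    omega
  · have : IsEmpty {d : D // U d = true ∧ J d = true ∧ J (M.a d) = false} := by
      constructor
      rintro ⟨d, a, b, c⟩
      obtain ⟨t, ht1, ht2, -⟩ := key d a b c
      exact hm ⟨t, ht1, ht2⟩
    rw [Nat.card_of_isEmpty] at h4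
    omega

theorem small_zero [Finite D] (v w : D) (hNA : NA M v w) (h3 : minimalPeriod M.f v ≤ 3) :
    NI M v w = 0 := by
  have hp : 0 < minimalPeriod M.f v := M.period_pos v
  have hpp : M.f^[minimalPeriod M.f v] v = v := iterate_minimalPeriod
  have hidx : ∀ x, M.Face v x → ∃ i, i < minimalPeriod M.f v ∧ M.f^[i] v = x := by
    rintro x ⟨n, rfl⟩
    exact ⟨n % minimalPeriod M.f v, Nat.mod_lt _ hp, iterate_mod_minimalPeriod_eq⟩
  have hadj : ∀ i j, i < j → j < minimalPeriod M.f v →
      M.f^[j] v = M.f (M.f^[i] v) ∨ M.f^[i] v = M.f (M.f^[j] v) := by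
    intro i j hij hj
    by_cases h1 : j = i + 1
    · left
      rw [h1, iterate_succ_apply']
    · have hi : i = 0 := by omega
      have hj2 : j = 2 := by omega
      have hp3 : minimalPeriod M.f v = 3 := by omega
      right
      rw [hp3] at hpp
      rw [hi, hj2, ← iterate_succ_apply' M.f]
      exact hpp.symm
  have hno : ∀ U : D → Bool, M.IsHam U → ∀ x, U x = false → U (M.f x) = false → False := by
    intro U hU x h1 h2
    have h3 := hU.one (M.a x)
    rw [hU.acl, h1] at h3
    change U (M.s (M.a x)) = false at h2
    rw [h2] at h3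
    rcases h3 with ⟨-, b, -⟩ | ⟨a, -, -⟩ | ⟨a, -, -⟩
    · exact absurd b (by decide)
    · exact absurd a (by decide)
    · exact absurd a (by decide)
  have hE : IsEmpty {U : D → Bool // M.IsHam U ∧ Intl M (M.Face v) (M.Face w) U} := by
    constructor
    rintro ⟨U, hU, hI⟩
    refine not_intl M hU v w hNA ?_ hI
    intro x y hx hy hUx hUy
    obtain ⟨i, hi, rfl⟩ := hidx x hx
    obtain ⟨j, hj, rfl⟩ := hidx y hy
    rcases lt_trichotomy i j with h | h | h
    · rcases hadj i j h hj with h' | h'
      · exact (hno U hU _ hUx (h' ▸ hUy)).elim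
      · exact (hno U hU _ hUy (h' ▸ hUx)).elim
    · rw [h]
    · rcases hadj j i h hi with h' | h'
      · exact (hno U hU _ hUy (h' ▸ hUx)).elim
      · exact (hno U hU _ hUx (h' ▸ hUy)).elim
  unfold NI
  exact Nat.card_of_isEmpty

end Pool.Agent.Helper66.CA
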