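import Pool.Agent.Helper66.CA.Base
import Pool.Agent.Helper58.CT.Smith

set_option autoImplicit false

/-!
Module AE-04: Smith's theorem.

`smith_even`: by `ct9_parity` (Helper58/CT/Smith) the numbers `n_c` of Hamilton cycles omitting
the dart `s^c d`, `c = 0,1,2`, are congruent mod 2; their sum is the number `N` of all Hamilton
cycles (each omits exactly one of the three darts: `IsHam.one`). So `N ≡ 3 n_0 ≡ n_0` and the
number of Hamilton cycles containing `d` is `N - n_0`, even.

`smith_two`: `#{U d ≠ U h} = #{U d} + #{U h} - 2 #{U d and U h}`.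
-/

namespace Pool.Agent.Helper66.CA
open Pool.Agent.Helper17.CT Function

variable {D : Type} (M : CMap D)

private lemma card_sum [Fintype D] [DecidableEq D] [DecidablePred M.IsHam]
    (P : (D → Bool) → Prop) [DecidablePred P] :
    Nat.card {U : D → Bool // M.IsHam U ∧ P U} =
      ∑ V ∈ (Finset.univ : Finset (D → Bool)).filter (fun V => M.IsHam V),
        if P V then 1 else 0 := by
  rw [Nat.card_eq_fintype_card, Fintype.card_subtype, ← Finset.card_filter, Finset.filter_filter]

theorem smith_even [Finite D] (d : D) :
    Even (Nat.card {U : D → Bool // M.IsHam U ∧ U d = true}) := by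
  classical
  have := Fintype.ofFinite D
  have h := ct9_parity M d 1 2
  have e1 : ct9_iota M d 1 = M.s d := rfl
  have e2 : ct9_iota M d 2 = M.s (M.s d) := rfl
  rw [e1, e2, card_sum M (fun V => V (M.s d) = false),
    card_sum M (fun V => V (M.s (M.s d)) = false)] at h
  have hs : Nat.card {U : D → Bool // M.IsHam U ∧ U d = true} =
      (∑ V ∈ (Finset.univ : Finset (D → Bool)).filter (fun V => M.IsHam V),
        if V (M.s d) = false then 1 else 0) +
      ∑ V ∈ (Finset.univ : Finset (D → Bool)).filter (fun V => M.IsHam V),
        if V (M.s (M.s d)) = false then 1 else 0 := by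
    rw [card_sum M (fun V => V d = true), ← Finset.sum_add_distrib]
    refine Finset.sum_congr rfl fun V hV => ?_
    have hV' := (Finset.mem_filter.1 hV).2
    rcases hV'.one d with ⟨h1, h2, h3⟩ | ⟨h1, h2, h3⟩ | ⟨h1, h2, h3⟩ <;>
      simp [h1, h2, h3]
  rw [hs, Nat.even_iff]
  unfold Nat.ModEq at h
  omega

theorem smith_two [Finite D] (d h : D) :
    Even (Nat.card {U : D → Bool // M.IsHam U ∧ U d ≠ U h}) := by
  classical
  have := Fintype.ofFinite D
  have h1 := smith_even M d
  have h2 := smith_even M h
  rw [card_sum M (fun V => V d = true)] at h1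
  rw [card_sum M (fun V => V h = true)] at h2
  have hs : Nat.card {U : D → Bool // M.IsHam U ∧ U d ≠ U h} +
      2 * (∑ V ∈ (Finset.univ : Finset (D → Bool)).filter (fun V => M.IsHam V),
        if V d = true ∧ V h = true then 1 else 0) =
      (∑ V ∈ (Finset.univ : Finset (D → Bool)).filter (fun V => M.IsHam V),
        if V d = true then 1 else 0) +
      ∑ V ∈ (Finset.univ : Finset (D → Bool)).filter (fun V => M.IsHam V),
        if V h = true then 1 else 0 := by
    rw [card_sum M (fun V => V d ≠ V h), Finset.mul_sum, ← Finset.sum_add_distrib,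
      ← Finset.sum_add_distrib]
    refine Finset.sum_congr rfl fun V _ => ?_
    cases hd : V d <;> cases hh : V h <;> simp
  rw [Nat.even_iff] at h1 h2 ⊢
  omega

end Pool.Agent.Helper66.CA
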