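import Pool.Agent.Helper66.CA.NoDual

set_option autoImplicit false

/-!
Module AE-08: a sufficient condition for interlacing.

`intl_of`: take `Y` from `walk_cut` with `l = [t, h, h', t']` (walk condition as in `term_a1`:
`φ t = φ t'`, `φ (a t) = φ h`, `φ (a h) = φ (a h')`, `φ (a t') = φ h'`). Let `J` be a VSet, false on
the face of `v`, true on the face of `w`. Put `P d := Y d && !J d`, `Q d := !Y d && !J d` (VSets).
(1) `Y t ≠ Y (a t)`: the xor at `t` is true (`ed t t = true`, the others are false, exactly as
in `term_a1`: needs `no_self`, `hNA`, `t ≠ t'`). `J t = false` and `J (a t) = J (s (a t)) =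
J (f t) = false`. So one of `t`, `a t` is in `P` and the other one in `Q`. Both are not everything:
`J w = true`. By `ham_two`: at least 2 darts of `U` leave `P`, and at least 2 leave `Q`.
(2) If `d` is a dart of `U` leaving `P` or leaving `Q` then `J (a d) = true` (and `J d = false`):
otherwise `Y (a d) ≠ Y d` (since `d ∈ P`, `a d ∉ P`, `J (a d) = false`; same for `Q`), so the xor at
`d` is true and `ed g d = true` for some `g ∈ l`. For `g = t, t'`: `U d = U g = false`,
contradiction. For `g = h`: `d = a h` is on the face of `w`, `J d = true`, contradiction; `d = h`: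
`f (a h) = s h` is on the face of `w`, so `J h = J (s h) = true`, contradiction. Same for `h'`.
(3) So `d ↦ a d` maps the darts leaving `P` injectively into `{x | U x, J x = true,
J (a x) = false}` with `Y (a x) = true`, and those leaving `Q` into the same set with
`Y (a x) = false`. Disjoint images: the set has at least 4 elements.
-/

namespace Pool.Agent.Helper66.CA
open Pool.Agent.Helper17.CT Function

variable {D : Type} (M : CMap D)

theorem intl_of [Finite D] (hp : M.Planar) {U : D → Bool} (hU : M.IsHam U) (v w : D)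
    (hNA : NA M v w) (t t' h h' : D) (ht : M.Face v t) (ht' : M.Face v t') (hne : t ≠ t')
    (hh : M.Face (M.a t) h) (hw : M.Face w (M.a h))
    (hh' : M.Face (M.a t') h') (hw' : M.Face w (M.a h'))
    (u1 : U t = false) (u2 : U t' = false) (u3 : U h = true) (u4 : U h' = true) :
    Intl M (M.Face v) (M.Face w) U := by
  obtain ⟨Y, hY, hYx⟩ := walk_cut M hp [t, h, h', t'] (by
    intro φ hφ
    have e1 : φ t = φ t' := face_eq M hφ (face_trans M (face_symm M ht) ht')
    have e2 : φ (M.a t) = φ h := face_eq M hφ hh
    have e3 : φ (M.a h) = φ (M.a h') := face_eq M hφ (face_trans M (face_symm M hw) hw')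
    have e4 : φ (M.a t') = φ h' := face_eq M hφ hh'
    simp only [List.map_cons, List.map_nil, xl_cons, xl_nil, e1, e2, e3, e4]
    generalize φ t' = x1
    generalize φ h = x2
    generalize φ (M.a h') = x3
    generalize φ h' = x4
    revert x1 x2 x3 x4; decide)
  intro J hJ jv jw
  have k1 : ed M t t = true := (ed_iff M t t).2 (Or.inl rfl)
  have k2 : ed M h t = false := (ed_false M h t).2 ⟨fun q => no_self M hp hU t (by
      have := hh; rw [← q] at this; exact face_symm M this),
    fun q => hNA t t ht (by have := hw; rwa [← q] at this) (Or.inl rfl)⟩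
  have k3 : ed M h' t = false := (ed_false M h' t).2 ⟨fun q => no_self M hp hU t' (by
      have := hh'; rw [← q] at this
      exact face_symm M (face_trans M this (face_trans M (face_symm M ht) ht'))),
    fun q => hNA t t ht (by have := hw'; rwa [← q] at this) (Or.inl rfl)⟩
  have k4 : ed M t' t = false := (ed_false M t' t).2 ⟨hne, fun q => no_self M hp hU t' (by
      have := ht; rw [q] at this; exact face_trans M (face_symm M ht') this)⟩
  have yt : (Y t ^^ Y (M.a t)) = true := by
    rw [hYx]
    simp only [List.map_cons, List.map_nil, xl_cons, xl_nil, k1, k2, k3, k4]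
    decide
  have jt : J t = false := jv t ht
  have jat : J (M.a t) = false := by
    rw [← hJ (M.a t)]; exact jv (M.f t) (face_trans M ht ⟨1, rfl⟩)
  have jww : J w = true := jw w ⟨0, rfl⟩
  have hwf : ∀ x, M.Face w (M.a x) → J x = true ∧ J (M.a x) = true := by
    intro x hx
    refine ⟨?_, jw _ hx⟩
    rw [← hJ x]
    refine jw _ (face_trans M hx ⟨1, ?_⟩)
    simp [CMap.f, M.a2]
  -- a dart of `U` on which the xor is true has `J = true`
  have hx : ∀ d, U d = true → (Y d ^^ Y (M.a d)) = true → J d = true := by
    intro d hd hyd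
    rw [hYx] at hyd
    simp only [List.map_cons, List.map_nil, xl_cons, xl_nil] at hyd
    have hor : ed M t d = true ∨ ed M h d = true ∨ ed M h' d = true ∨ ed M t' d = true := by
      revert hyd
      generalize ed M t d = b1
      generalize ed M h d = b2
      generalize ed M h' d = b3
      generalize ed M t' d = b4
      revert b1 b2 b3 b4; decide
    have hno : ∀ x, U x = false → ed M x d = true → False := by
      intro x hx0 hx1
      rcases (ed_iff M x d).1 hx1 with q | q
      · rw [q, hx0] at hd; exact Bool.noConfusion hd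
      · rw [q, hU.acl, hx0] at hd; exact Bool.noConfusion hd
    rcases hor with q | q | q | q
    · exact (hno t u1 q).elim
    · rcases (ed_iff M h d).1 q with q | q
      · rw [q]; exact (hwf h hw).1
      · rw [q]; exact (hwf h hw).2
    · rcases (ed_iff M h' d).1 q with q | q
      · rw [q]; exact (hwf h' hw').1
      · rw [q]; exact (hwf h' hw').2
    · exact (hno t' u2 q).elim
  have hP : M.VSet (fun d => Y d && !J d) := fun d => by
    change (Y (M.s d) && !J (M.s d)) = (Y d && !J d)
    rw [hY, hJ]
  have hQ : M.VSet (fun d => !Y d && !J d) := fun d => by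
    change (!Y (M.s d) && !J (M.s d)) = (!Y d && !J d)
    rw [hY, hJ]
  have hPw : (Y w && !J w) = false := by rw [jww]; simp
  have hQw : (!Y w && !J w) = false := by rw [jww]; simp
  have hcase : (Y t = true ∧ Y (M.a t) = false) ∨ (Y t = false ∧ Y (M.a t) = true) := by
    revert yt
    generalize Y t = b1
    generalize Y (M.a t) = b2
    revert b1 b2; decide
  have hPe : ∃ x, (Y x && !J x) = true := by
    rcases hcase with q | q
    · exact ⟨t, by rw [q.1, jt]; rfl⟩
    · exact ⟨M.a t, by rw [q.2, jat]; rfl⟩
  have hQe : ∃ x, (!Y x && !J x) = true := by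
    rcases hcase with q | q
    · exact ⟨M.a t, by rw [q.2, jat]; rfl⟩
    · exact ⟨t, by rw [q.1, jt]; rfl⟩
  have cP := ham_two M hU hP hPe ⟨w, hPw⟩
  have cQ := ham_two M hU hQ hQe ⟨w, hQw⟩
  -- leaving darts lead into `J`
  have lP : ∀ d, U d = true → (Y d && !J d) = true → (Y (M.a d) && !J (M.a d)) = false →
      J d = false ∧ J (M.a d) = true ∧ Y d = true := by
    intro d d1 d2 d3
    have := hx d d1
    revert this d2 d3
    generalize Y d = b1
    generalize J d = b2
    generalize Y (M.a d) = b3
    generalize J (M.a d) = b4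
    cases b1 <;> cases b2 <;> cases b3 <;> cases b4 <;> simp
  have lQ : ∀ d, U d = true → (!Y d && !J d) = true → (!Y (M.a d) && !J (M.a d)) = false →
      J d = false ∧ J (M.a d) = true ∧ Y d = false := by
    intro d d1 d2 d3
    have := hx d d1
    revert this d2 d3
    generalize Y d = b1
    generalize J d = b2
    generalize Y (M.a d) = b3
    generalize J (M.a d) = b4
    cases b1 <;> cases b2 <;> cases b3 <;> cases b4 <;> simp
  let F : ({d : D // U d = true ∧ (Y d && !J d) = true ∧ (Y (M.a d) && !J (M.a d)) = false} ⊕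
      {d : D // U d = true ∧ (!Y d && !J d) = true ∧ (!Y (M.a d) && !J (M.a d)) = false}) →
      {d : D // U d = true ∧ J d = true ∧ J (M.a d) = false} := fun z =>
    match z with
    | Sum.inl d => ⟨M.a d.1, by rw [hU.acl]; exact d.2.1,
        (lP d.1 d.2.1 d.2.2.1 d.2.2.2).2.1, by rw [M.a2]; exact (lP d.1 d.2.1 d.2.2.1 d.2.2.2).1⟩
    | Sum.inr d => ⟨M.a d.1, by rw [hU.acl]; exact d.2.1,
        (lQ d.1 d.2.1 d.2.2.1 d.2.2.2).2.1, by rw [M.a2]; exact (lQ d.1 d.2.1 d.2.2.1 d.2.2.2).1⟩
  have hF : Function.Injective F := by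
    rintro (x | x) (y | y) hxy
    · have h0 : M.a x.1 = M.a y.1 := congrArg Subtype.val hxy
      rw [Subtype.ext (ct10_a_inj M h0)]
    · have h0 : M.a x.1 = M.a y.1 := congrArg Subtype.val hxy
      have h1 := (lP x.1 x.2.1 x.2.2.1 x.2.2.2).2.2
      have h2 := (lQ y.1 y.2.1 y.2.2.1 y.2.2.2).2.2
      rw [ct10_a_inj M h0, h2] at h1
      exact Bool.noConfusion h1
    · have h0 : M.a x.1 = M.a y.1 := congrArg Subtype.val hxy
      have h1 := (lQ x.1 x.2.1 x.2.2.1 x.2.2.2).2.2
      have h2 := (lP y.1 y.2.1 y.2.2.1 y.2.2.2).2.2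
      rw [ct10_a_inj M h0, h2] at h1
      exact Bool.noConfusion h1
    · have h0 : M.a x.1 = M.a y.1 := congrArg Subtype.val hxy
      rw [Subtype.ext (ct10_a_inj M h0)]
  have hle := Nat.card_le_card_of_injective F hF
  rw [Nat.card_sum] at hle
  have cP' : 2 ≤ Nat.card {d : D // U d = true ∧ (Y d && !J d) = true ∧
      (Y (M.a d) && !J (M.a d)) = false} := cP
  have cQ' : 2 ≤ Nat.card {d : D // U d = true ∧ (!Y d && !J d) = true ∧
      (!Y (M.a d) && !J (M.a d)) = false} := cQ
  omega

end Pool.Agent.Helper66.CA
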