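import Pool.Agent.Helper66.CA.TermA
import Pool.Agent.Helper66.CA.TermInt
import Pool.Agent.Helper66.CA.Legs
import Pool.Agent.Helper66.CA.SmithE

set_option autoImplicit false

/-!
Module AE-09: the terminal case: all faces adjacent to the face of `v` are adjacent to the face
of `w`.
-/

namespace Pool.Agent.Helper66.CA
open Pool.Agent.Helper17.CT Function

variable {D : Type} (M : CMap D)

theorem terminal [Finite D] (hp : M.Planar) (v w : D) (hNA : NA M v w)
    (h4 : 4 ≤ minimalPeriod M.f v) (h5 : minimalPeriod M.f v ≤ 5)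
    (hall : ∀ t, M.Face v t → ∃ h, M.Face (M.a t) h ∧ M.Face w (M.a h)) :
    Even (NI M v w) := by
  classical
  choose H hH1 hH2 using hall
  have hv : M.Face v v := ⟨0, rfl⟩
  have hf : ∀ t, M.Face v t → M.Face v (M.f t) := fun t ht => face_trans M ht ⟨1, rfl⟩
  -- the xor of `U t` and `U (H t)` is constant
  have key : ∀ (U : D → Bool), M.IsHam U → ∃ c : Bool,
      ∀ t (ht : M.Face v t), U (H t ht) = (U t ^^ c) := by
    intro U hU
    obtain ⟨φ, hφ, hUφ⟩ := hp U (even_of_ham M U hU)
    refine ⟨φ v ^^ φ w, fun t ht => ?_⟩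
    rw [hUφ t, hUφ (H t ht), ← face_eq M hφ ht, face_eq M hφ (hH1 t ht),
      ← face_eq M hφ (hH2 t ht)]
    cases φ v <;> cases φ w <;> cases φ (H t ht) <;> rfl
  -- constant `false`: not interlaced
  have caseA : ∀ (U : D → Bool), M.IsHam U →
      (∀ t (ht : M.Face v t), U (H t ht) = U t) → ¬ Intl M (M.Face v) (M.Face w) U := by
    intro U hU hc
    apply not_intl M hU v w hNA
    intro x y hx hy ux uy
    by_contra hne
    exact term_a1 M hp hU v w hNA x y (H x hx) (H y hy) hx hy hne (hH1 x hx) (hH2 x hx)
      (hH1 y hy) (hH2 y hy) ux uy (by rw [hc, ux]) (by rw [hc, uy])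
  -- constant `true`: alternate
  have caseB : ∀ (U : D → Bool), M.IsHam U →
      (∀ t (ht : M.Face v t), U (H t ht) = !U t) → ∀ t, M.Face v t → U (M.f t) = !U t := by
    intro U hU hc t ht
    have h1 := hU.one (M.a t)
    have h2 : U (M.a t) = U t := hU.acl t
    have h3 : M.s (M.a t) = M.f t := rfl
    rw [h2, h3] at h1
    cases hut : U t
    · rcases h1 with h | h | h
      · simpa using h.2.1
      · rw [hut] at h; simp at h
      · rw [hut] at h; simp at h
    · cases huf : U (M.f t)
      · rfl
      · exfalso
        refine term_a2 M hp hU v w hNA t (H t ht) (H (M.f t) (hf t ht)) ht (hH1 t ht)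
          (hH2 t ht) (hH1 _ (hf t ht)) (hH2 _ (hf t ht)) hut huf ?_ ?_
        · rw [hc, hut]; rfl
        · rw [hc, huf]; rfl
  have iter : ∀ (U : D → Bool), (∀ t, M.Face v t → U (M.f t) = !U t) →
      ∀ t, M.Face v t → U (M.f (M.f t)) = U t := by
    intro U h t ht
    rw [h _ (hf t ht), h t ht, Bool.not_not]
  rcases (show minimalPeriod M.f v = 4 ∨ minimalPeriod M.f v = 5 by omega) with hk | hk
  · -- period 4
    have hint : ∀ (U : D → Bool), M.IsHam U →
        (∀ t (ht : M.Face v t), U (H t ht) = !U t) → Intl M (M.Face v) (M.Face w) U := by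
      intro U hU hc
      have hB := caseB U hU hc
      have main : ∀ t, M.Face v t → U t = false → M.f (M.f t) ≠ t →
          Intl M (M.Face v) (M.Face w) U := by
        intro t ht hut hne
        have ht' := hf _ (hf t ht)
        refine intl_of M hp hU v w hNA t (M.f (M.f t)) (H t ht) (H _ ht') ht ht' (Ne.symm hne)
          (hH1 t ht) (hH2 t ht) (hH1 _ ht') (hH2 _ ht') hut ?_ ?_ ?_
        · rw [iter U hB t ht, hut]
        · rw [hc, hut]; rfl
        · rw [hc, iter U hB t ht, hut]; rfl
      have n2 : M.f (M.f v) ≠ v := by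
        intro h
        have h2 : IsPeriodicPt M.f 2 v := h
        have := h2.minimalPeriod_le (by norm_num)
        omega
      cases hv0 : U v
      · exact main v hv hv0 n2
      · refine main (M.f v) (hf v hv) (by rw [hB v hv, hv0]; rfl) ?_
        intro h
        exact n2 (ct10_f_inj M h)
    have e : Nat.card {U : D → Bool // M.IsHam U ∧ Intl M (M.Face v) (M.Face w) U} =
        Nat.card {U : D → Bool // M.IsHam U ∧ U v ≠ U (H v hv)} := by
      apply Nat.card_congr
      apply Equiv.subtypeEquivRight
      intro U
      constructor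
      · rintro ⟨hU, hI⟩
        refine ⟨hU, fun h => ?_⟩
        obtain ⟨c, hc⟩ := key U hU
        have h1 := hc v hv
        rw [← h] at h1
        have hc0 : c = false := by
          cases c
          · rfl
          · cases h2 : U v <;> rw [h2] at h1 <;> simp at h1
        subst hc0
        exact caseA U hU (fun t ht => by rw [hc t ht, Bool.xor_false]) hI
      · rintro ⟨hU, hne⟩
        refine ⟨hU, ?_⟩
        obtain ⟨c, hc⟩ := key U hU
        have hc1 : c = true := by
          cases c
          · exact absurd (by rw [hc v hv, Bool.xor_false]) hne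
          · rfl
        subst hc1
        exact hint U hU (fun t ht => by rw [hc t ht, Bool.xor_true])
    rw [NI, e]
    exact smith_two M v (H v hv)
  · -- period 5
    have hempty : IsEmpty {U : D → Bool // M.IsHam U ∧ Intl M (M.Face v) (M.Face w) U} := by
      constructor
      rintro ⟨U, hU, hI⟩
      obtain ⟨c, hc⟩ := key U hU
      cases c
      · exact caseA U hU (fun t ht => by rw [hc t ht, Bool.xor_false]) hI
      · have hB := caseB U hU (fun t ht => by rw [hc t ht, Bool.xor_true])
        have h5' : M.f (M.f (M.f (M.f (M.f v)))) = v := by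
          have := isPeriodicPt_minimalPeriod M.f v
          rw [hk] at this
          exact this
        have h1 := iter U hB v hv
        have h2 := iter U hB _ (hf _ (hf v hv))
        have h3 := hB _ (hf _ (hf _ (hf _ (hf v hv))))
        rw [h5', h2, h1] at h3
        cases h6 : U v <;> rw [h6] at h3 <;> simp at h3
    rw [NI, Nat.card_eq_zero.2 (Or.inl hempty)]
    exact ⟨0, rfl⟩

end Pool.Agent.Helper66.CA
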