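import Pool.Agent.Helper66.CA.NoDual

set_option autoImplicit false

/-!
Module AE-07: two contradictions.

`term_a1`: apply `no_dual` to `l = [t, h, h', t']`. Walk condition: for a face function `φ`:
`φ t = φ t'` (both on the face of `v`), `φ (a t) = φ h`, `φ (a h) = φ (a h')` (face of `w`),
`φ (a t') = φ h'` (use `face_eq`, `face_symm`, `face_trans`). Conclusion at the dart `t`:
`ed t t = true`; `ed h t = false` since `t = h` would give `Face t (a t)` (by `face_symm`,
contradiction to `no_self`), `t = a h` would give that `t` is on both faces, contradiction to `hNA`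
(`VEq t t`); `ed h' t = false`: `t = h'` gives that `a t'` and `t'` are on one face (`no_self` for
`t'`), `t = a h'` as before; `ed t' t = false`: `t ≠ t'`, and `t = a t'` contradicts `no_self`.
So the xor is true, contradiction.

`term_a2`: let `t1 := f t = s (a t)`, `g := s t1`. Then `f (a t1) = g` (so `Face (a t1) g`) and
`f (a g) = s g = s (s (s (a t))) = a t` (so `Face (a g) (a t)`). `U g = false` by `One` at `a t`
(`U (a t) = U t = true`, `U t1 = true`). Apply `no_dual` to `l = [g, h, h1]`: `φ g = φ h1`,
`φ (a g) = φ h`, `φ (a h) = φ (a h1)`. At the dart `g`: `ed g g = true`; `g = h` would give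
`a g = a h` on the face of `w`, so `a t` is on the face of `w`, but `a t` is at the vertex of `t1`
(on the face of `v`): contradiction to `hNA`; `g = a h`: `g` and so `a t1` is on the face of `w`,
but `a t1` is at the vertex of `f t1 = s (a t1)` (on the face of `v`), contradiction; the same for
`h1` (`g = h1`: `a g` is on the face of `w`, `g = a h1`: `g` is on the face of `w`).
-/

namespace Pool.Agent.Helper66.CA
open Pool.Agent.Helper17.CT Function

variable {D : Type} (M : CMap D)

theorem term_a1 [Finite D] (hp : M.Planar) {U : D → Bool} (hU : M.IsHam U) (v w : D)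
    (hNA : NA M v w) (t t' h h' : D) (ht : M.Face v t) (ht' : M.Face v t') (hne : t ≠ t')
    (hh : M.Face (M.a t) h) (hw : M.Face w (M.a h))
    (hh' : M.Face (M.a t') h') (hw' : M.Face w (M.a h'))
    (u1 : U t = false) (u2 : U t' = false) (u3 : U h = false) (u4 : U h' = false) : False := by
  have key := no_dual M hp hU [t, h, h', t'] (by
    intro φ hφ
    have e1 : φ t = φ t' := face_eq M hφ (face_trans M (face_symm M ht) ht')
    have e2 : φ (M.a t) = φ h := face_eq M hφ hh
    have e3 : φ (M.a h) = φ (M.a h') := face_eq M hφ (face_trans M (face_symm M hw) hw')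
    have e4 : φ (M.a t') = φ h' := face_eq M hφ hh'
    simp only [List.map_cons, List.map_nil, xl_cons, xl_nil, e1, e2, e3, e4]
    generalize φ t' = x1
    generalize φ h = x2
    generalize φ (M.a h') = x3
    generalize φ h' = x4
    revert x1 x2 x3 x4; decide) (by
    intro g hg
    simp only [List.mem_cons, List.not_mem_nil, or_false] at hg
    rcases hg with rfl | rfl | rfl | rfl <;> assumption) t
  have k1 : ed M t t = true := (ed_iff M t t).2 (Or.inl rfl)
  have k2 : ed M h t = false := (ed_false M h t).2 ⟨fun q => no_self M hp hU t (by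
      have := hh; rw [← q] at this; exact face_symm M this),
    fun q => hNA t t ht (by have := hw; rwa [← q] at this) (Or.inl rfl)⟩
  have k3 : ed M h' t = false := (ed_false M h' t).2 ⟨fun q => no_self M hp hU t' (by
      have := hh'; rw [← q] at this
      exact face_symm M (face_trans M this (face_trans M (face_symm M ht) ht'))),
    fun q => hNA t t ht (by have := hw'; rwa [← q] at this) (Or.inl rfl)⟩
  have k4 : ed M t' t = false := (ed_false M t' t).2 ⟨hne, fun q => no_self M hp hU t' (by
      have := ht; rw [q] at this; exact face_trans M (face_symm M ht') this)⟩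
  simp [k1, k2, k3, k4] at key

theorem term_a2 [Finite D] (hp : M.Planar) {U : D → Bool} (hU : M.IsHam U) (v w : D)
    (hNA : NA M v w) (t h h1 : D) (ht : M.Face v t)
    (hh : M.Face (M.a t) h) (hw : M.Face w (M.a h))
    (hh1 : M.Face (M.a (M.f t)) h1) (hw1 : M.Face w (M.a h1))
    (u1 : U t = true) (u2 : U (M.f t) = true) (u3 : U h = false) (u4 : U h1 = false) : False := by
  have hf1 : M.Face (M.a (M.f t)) (M.s (M.f t)) := ⟨1, by
    simp [CMap.f, M.a2]⟩
  have hf2 : M.Face (M.a (M.s (M.f t))) (M.a t) := ⟨1, by
    simp [CMap.f, M.a2, M.s3]⟩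
  have ug : U (M.s (M.f t)) = false := by
    have h0 := hU.one (M.a t)
    rw [hU.acl, u1] at h0
    change One true (U (M.f t)) (U (M.s (M.f t))) at h0
    rw [u2] at h0
    rcases h0 with h0 | h0 | h0
    · exact absurd h0.1 (by decide)
    · exact absurd h0.2.1 (by decide)
    · exact h0.2.2
  have key := no_dual M hp hU [M.s (M.f t), h, h1] (by
    intro φ hφ
    have e1 : φ (M.s (M.f t)) = φ h1 := face_eq M hφ (face_trans M (face_symm M hf1) hh1)
    have e2 : φ (M.a (M.s (M.f t))) = φ h := face_eq M hφ (face_trans M hf2 hh)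
    have e3 : φ (M.a h) = φ (M.a h1) := face_eq M hφ (face_trans M (face_symm M hw) hw1)
    simp only [List.map_cons, List.map_nil, xl_cons, xl_nil, e1, e2, e3]
    generalize φ h1 = x1
    generalize φ h = x2
    generalize φ (M.a h1) = x3
    revert x1 x2 x3; decide) (by
    intro g hg
    simp only [List.mem_cons, List.not_mem_nil, or_false] at hg
    rcases hg with rfl | rfl | rfl <;> assumption) (M.s (M.f t))
  have v1 : M.Face v (M.f t) := face_trans M ht ⟨1, rfl⟩
  have v2 : M.Face v (M.f (M.f t)) := face_trans M v1 ⟨1, rfl⟩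
  -- neither `a t` nor `a (f t)` is on the face of `w`
  have n1 : ¬ M.Face w (M.a t) := fun q => hNA (M.f t) (M.a t) v1 q
    (Or.inr (Or.inr (by simp [CMap.f, M.s3])))
  have n2 : ¬ M.Face w (M.a (M.f t)) := fun q => hNA (M.f (M.f t)) (M.a (M.f t)) v2 q
    (Or.inr (Or.inr (by rw [show M.f (M.f t) = M.s (M.a (M.f t)) from rfl, M.s3])))
  have n3 : ∀ x, M.Face w (M.a x) → M.s (M.f t) ≠ x := fun x hx q => n1 (by
    rw [← q] at hx; exact face_trans M hx hf2)
  have n4 : ∀ x, M.Face w (M.a x) → M.s (M.f t) ≠ M.a x := fun x hx q => n2 (by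
    rw [← q] at hx; exact face_trans M hx (face_symm M hf1))
  have k1 : ed M (M.s (M.f t)) (M.s (M.f t)) = true := (ed_iff M _ _).2 (Or.inl rfl)
  have k2 : ed M h (M.s (M.f t)) = false := (ed_false M h _).2 ⟨n3 h hw, n4 h hw⟩
  have k3 : ed M h1 (M.s (M.f t)) = false := (ed_false M h1 _).2 ⟨n3 h1 hw1, n4 h1 hw1⟩
  simp [k1, k2, k3] at key

end Pool.Agent.Helper66.CA
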