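import Pool.Agent.Helper66.CA.Base
import Pool.Agent.Helper78.CT.Cut

set_option autoImplicit false

/-!
Module AE-01: a closed walk in the dual graph is a cut.
-/

namespace Pool.Agent.Helper66.CA
open Pool.Agent.Helper17.CT Function

variable {D : Type} (M : CMap D)

theorem walk_cut [Finite D] (hp : M.Planar) (l : List D)
    (hl : ∀ φ : D → Bool, (∀ d, φ (M.f d) = φ d) →
      xl (l.map fun g => φ g ^^ φ (M.a g)) = false) :
    ∃ X : D → Bool, M.VSet X ∧ ∀ d, (X d ^^ X (M.a d)) = xl (l.map fun g => ed M g d) := by
  classical
  have : Fintype D := Fintype.ofFinite D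
  have ed_a : ∀ g d, ed M g (M.a d) = ed M g d := by
    intro g d
    rw [Bool.eq_iff_iff, ed_iff, ed_iff]
    constructor
    · rintro (h | h)
      · right; rw [← h, M.a2]
      · left; rw [← M.a2 d, h, M.a2]
    · rintro (h | h)
      · right; rw [h]
      · left; rw [h, M.a2]
  obtain ⟨X, hX, hC⟩ := cut_of_orth M (fun d => xl (l.map fun g => ed M g d)) (by
    intro d
    simp only [ed_a]) (by
    intro Z hZ
    obtain ⟨T, hT⟩ := Ct11.exists_half M
    obtain ⟨φ, hφ, hZφ⟩ := hp Z hZ
    have hZa : ∀ d, Z (M.a d) = Z d := hZ.1
    set C : D → Bool := fun d => xl (l.map fun g => ed M g d) with hCdef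
    have hCa : ∀ d, C (M.a d) = C d := by
      intro d
      simp only [hCdef, ed_a]
    let w : D → ZMod 2 := fun d => if T d ∧ Z d = true then 1 else 0
    have hw1 : ∀ g, w g + w (M.a g) = Ct11.z (Z g) := by
      intro g
      simp only [w, hZa]
      by_cases h1 : T g
      · have h2 : ¬ T (M.a g) := fun h2 => hT g ⟨fun _ => h2, fun _ => h1⟩
        cases h3 : Z g <;> simp [h1, h2, Ct11.z_true, Ct11.z_false]
      · have h2 : T (M.a g) := by
          by_contra h2
          exact hT g ⟨fun h => absurd h h1, fun h => absurd h h2⟩
        cases h3 : Z g <;> simp [h1, h2, Ct11.z_true, Ct11.z_false]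
    have hsum : ∀ l' : List D, ∑ d, w d * Ct11.z (xl (l'.map fun g => ed M g d)) =
        Ct11.z (xl (l'.map Z)) := by
      intro l'
      induction l' with
      | nil => simp [Ct11.z_false]
      | cons g l' ih =>
        simp only [List.map_cons, xl_cons, Ct11.z_xor, mul_add, Finset.sum_add_distrib]
        rw [ih, ← hw1 g]
        congr 1
        have h1 : ∀ d, w d * Ct11.z (ed M g d) =
            (if d = g then w d else 0) + (if d = M.a g then w d else 0) := by
          intro d
          by_cases h2 : d = g
          · have h3 : d ≠ M.a g := fun h => M.a1 g (h.symm.trans h2)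
            have h4 : ed M g d = true := (ed_iff M g d).2 (Or.inl h2)
            rw [h4, if_pos h2, if_neg h3, Ct11.z_true, mul_one, add_zero]
          · by_cases h3 : d = M.a g
            · have h4 : ed M g d = true := (ed_iff M g d).2 (Or.inr h3)
              rw [h4, if_neg h2, if_pos h3, Ct11.z_true, mul_one, zero_add]
            · have h4 : ed M g d = false := (ed_false M g d).2 ⟨h2, h3⟩
              rw [h4, if_neg h2, if_neg h3, Ct11.z_false, mul_zero, add_zero]
        simp only [h1, Finset.sum_add_distrib, Finset.sum_ite_eq', Finset.mem_univ, if_true]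
    have hlZ : xl (l.map Z) = false := by
      have := hl φ hφ
      rw [← this]
      congr 1
      apply List.map_congr_left
      intro g _
      exact hZφ g
    have h5 : ((Finset.univ.filter (fun d => T d ∧ Z d = true ∧ C d = true)).card : ZMod 2) =
        0 := by
      have h6 := hsum l
      rw [hlZ, Ct11.z_false] at h6
      rw [← h6, Finset.card_filter, Nat.cast_sum]
      refine Finset.sum_congr rfl fun d _ => ?_
      simp only [w, hCdef]
      by_cases h1 : T d <;> cases h2 : Z d <;> cases h3 : xl (l.map fun g => ed M g d) <;>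
        simp [h1, Ct11.z_true, Ct11.z_false]
    have h6 : (Finset.univ.filter (fun d => ¬ T d ∧ Z d = true ∧ C d = true)).card =
        (Finset.univ.filter (fun d => T d ∧ Z d = true ∧ C d = true)).card := by
      refine Finset.card_bij (fun d _ => M.a d) ?_ ?_ ?_
      · intro d hd
        simp only [Finset.mem_filter, Finset.mem_univ, true_and] at hd ⊢
        refine ⟨?_, by rw [hZa]; exact hd.2.1, by rw [hCa]; exact hd.2.2⟩
        by_contra h2
        exact hT d ⟨fun h => absurd h hd.1, fun h => absurd h h2⟩
      · intro d _ d' _ he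
        rw [← M.a2 d, he, M.a2]
      · intro d hd
        simp only [Finset.mem_filter, Finset.mem_univ, true_and] at hd
        refine ⟨M.a d, ?_, M.a2 d⟩
        simp only [Finset.mem_filter, Finset.mem_univ, true_and]
        refine ⟨?_, by rw [hZa]; exact hd.2.1, by rw [hCa]; exact hd.2.2⟩
        intro h2
        exact hT d ⟨fun _ => h2, fun _ => hd.1⟩
    have h7 : Nat.card {d : D // Z d = true ∧ C d = true} =
        (Finset.univ.filter (fun d => T d ∧ Z d = true ∧ C d = true)).card +
        (Finset.univ.filter (fun d => ¬ T d ∧ Z d = true ∧ C d = true)).card := by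
      rw [Nat.card_eq_fintype_card, Fintype.card_subtype, ← Finset.card_union_of_disjoint]
      · congr 1
        ext d
        simp only [Finset.mem_filter, Finset.mem_univ, true_and, Finset.mem_union]
        tauto
      · rw [Finset.disjoint_filter]
        intro d _ h1 h2
        exact h2.1 h1.1
    have h8 : 2 ∣ (Finset.univ.filter (fun d => T d ∧ Z d = true ∧ C d = true)).card :=
      (ZMod.natCast_eq_zero_iff _ 2).1 h5
    rw [h7, h6]
    omega)
  exact ⟨X, hX, fun d => (hC d).symm⟩

end Pool.Agent.Helper66.CA
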